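import Pool.Agent.Helper3.PR.Ub

/-! The averaged logarithm of the regular volume determinant, for systems and their projections. -/

set_option autoImplicit false

namespace Pool.Agent.Helper3.PR

open Finset Filter Topology Matrix Pool.Agent.Helper69.RK Pool.Agent.Helper31.EC Pool.Agent.Helper40.EL
open Pool.Agent.Helper31.EC.Sp
open Pool.Agent.Helper95.LF Pool.Agent.Helper3.LF Pool.Agent.Helper48.NS Pool.Agent.Helper89.LX

noncomputable section

/-! ### expectations -/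

open Classical in
/-- probabilities as sums -/
theorem pb_sum (F : FSp) (E : F.Ω → Prop) : F.pb E = ∑ ω, F.μ ω * (if E ω then (1 : ℝ) else 0) := by
  unfold FSp.pb mass
  apply Finset.sum_congr rfl
  intro ω _
  by_cases hD : E ω
  · rw [res_pos _ _ _ hD, if_pos hD, mul_one]
  · rw [res_neg _ _ _ hD, if_neg hD, mul_zero]

theorem sum_mu (F : FSp) : ∑ ω, F.μ ω = 1 := F.ms

/-- expectations of functions which are comparable on a large event -/
theorem exp_le (F : FSp) (f g : F.Ω → ℝ) (E : F.Ω → Prop) (α C : ℝ)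
    (h1 : ∀ ω, F.μ ω ≠ 0 → E ω → g ω ≤ f ω - α) (h2 : ∀ ω, F.μ ω ≠ 0 → g ω ≤ C) (h3 : ∀ ω, F.μ ω ≠ 0 → 0 ≤ f ω) :
    ∑ ω, F.μ ω * g ω ≤ (∑ ω, F.μ ω * f ω) - α + (C + |α|) * F.pb (fun ω => ¬ E ω) := by
  classical
  have h4 : ∑ ω, F.μ ω * g ω ≤ ∑ ω, F.μ ω * (f ω - α + (C + |α|) * (if ¬ E ω then (1 : ℝ) else 0)) := by
    refine Finset.sum_le_sum fun ω _ => ?_
    by_cases h0 : F.μ ω = 0
    · rw [h0, zero_mul, zero_mul]
    · apply mul_le_mul_of_nonneg_left _ (F.nn ω)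
      have hα := le_abs_self α
      by_cases hE : E ω
      · rw [if_neg (not_not.mpr hE), mul_zero, add_zero]
        exact h1 ω h0 hE
      · rw [if_pos hE, mul_one]
        have := h2 ω h0
        have := h3 ω h0
        linarith
  refine h4.trans (le_of_eq ?_)
  have h5 : ∀ ω, F.μ ω * (f ω - α + (C + |α|) * (if ¬ E ω then (1 : ℝ) else 0)) =
      F.μ ω * f ω - F.μ ω * α + (C + |α|) * (F.μ ω * (if ¬ E ω then (1 : ℝ) else 0)) := fun ω => by ring
  rw [Finset.sum_congr rfl (fun ω _ => h5 ω), Finset.sum_add_distrib, Finset.sum_sub_distrib, ← Finset.mul_sum,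
    ← Finset.sum_mul, sum_mu, one_mul]
  congr 2
  rw [pb_sum F (fun ω => ¬ E ω)]
  refine Finset.sum_congr rfl fun ω _ => ?_
  by_cases hE : E ω
  · rw [if_neg (not_not.mpr hE), if_neg (not_not.mpr hE)]
  · rw [if_pos hE, if_pos hE]

variable {S : Sp} {m D : ℕ}

/-- the averaged logarithm of the regular volume determinant -/
def lgd (s : Sys S m) (D : ℕ) (x : ∀ k, FD (S.F k) (Mon (m + 1) D)) (k : ℕ) : ℝ :=
  ∑ ω, (x k).l.T.μ ω * Real.logb 2 (GG (S.dl 1 k) ((x k).g ω) (ptf s k ((x k).l.p.π ω)))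

theorem logGG_nonneg (r : ℝ) {A : Matrix (Mon (m + 1) D) (Mon (m + 1) D) ℝ} (hA : PdM A) (p : Fin (m + 1) → ℝ) :
    0 ≤ Real.logb 2 (GG r A p) := Real.logb_nonneg (by norm_num) (one_le_GG r hA.1 hA.nonneg p)

theorem GG_pos' (r : ℝ) {A : Matrix (Mon (m + 1) D) (Mon (m + 1) D) ℝ} (hA : PdM A) (p : Fin (m + 1) → ℝ) :
    0 < GG r A p := lt_of_lt_of_le zero_lt_one (one_le_GG r hA.1 hA.nonneg p)

/-- exponential bound for the logarithm -/
theorem logGG_ub (s : Sys S m) (D : ℕ) : ∃ C : ℝ, 0 ≤ C ∧ ∀ᶠ k in UF, ∀ ω, (S.F k).μ ω ≠ 0 →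
    ∀ A : Matrix (Mon (m + 1) D) (Mon (m + 1) D) ℝ, Cpd ((gau s D).cp k) A →
      Real.logb 2 (GG (S.dl 1 k) A (ptf s k ω)) ≤ C * (S.F k).n := by
  obtain ⟨C, hC, h⟩ := GG_ub s D
  refine ⟨C, hC, ?_⟩
  filter_upwards [h] with k hk ω hω A hA
  rw [Real.logb_le_iff_le_rpow (by norm_num) (GG_pos' _ hA.pdM _)]
  exact hk ω hω A hA

theorem lgd_bounds {A B : Part S} (s : Sys S m) {x : ∀ k, FD (S.F k) (Mon (m + 1) D)}
    (hx : (gau s D).Ad A B x) : ∃ C : ℝ, 0 ≤ C ∧ ∀ᶠ k in UF, 0 ≤ lgd s D x k / (S.F k).n ∧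
      lgd s D x k / (S.F k).n ≤ C := by
  obtain ⟨C, hC, h⟩ := logGG_ub s D
  refine ⟨C, hC, ?_⟩
  filter_upwards [h, hx 1 one_pos] with k h1 h2
  have hn := (S.F k).pos
  have hc : ∀ ω, (x k).l.T.μ ω ≠ 0 → Cpd ((gau s D).cp k) ((x k).g ω) := fun ω hω => (h2.2.2.1 ω hω).1
  constructor
  · apply div_nonneg _ hn.le
    apply Finset.sum_nonneg
    intro ω _
    by_cases h0 : (x k).l.T.μ ω = 0
    · rw [h0, zero_mul]
    · exact mul_nonneg ((x k).l.T.nn ω) (logGG_nonneg _ (hc ω h0).pdM _)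
  · rw [div_le_iff₀ hn]
    apply sum_mul_le
    intro ω hω
    exact h1 _ ((x k).l.p.supp ω hω) _ (hc ω hω)

theorem lgd_UB {A B : Part S} (s : Sys S m) {x : ∀ k, FD (S.F k) (Mon (m + 1) D)}
    (hx : (gau s D).Ad A B x) : UB (fun k => lgd s D x k / (S.F k).n) := by
  obtain ⟨C, -, h⟩ := lgd_bounds s hx
  exact UB_of_nonneg_le (h.mono fun k hk => hk.1) (h.mono fun k hk => hk.2)

/-- comparison of the averages of two labels with forms of two systems over one space: it is enough to compare the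
determinants on a typical event of the join -/
theorem lgd_le_of {m' : ℕ} {A B A' B' : Part S} (s : Sys S m) (s' : Sys S m')
    {x : ∀ k, FD (S.F k) (Mon (m + 1) D)} {y : ∀ k, FD (S.F k) (Mon (m' + 1) D)}
    (hx : (gau s D).Ad A B x) (hy : (gau s' D).Ad A' B' y) (α : ℝ)
    (T : ∀ k, FSp) (p : ∀ k, FPj (T k) (x k).l.T) (p' : ∀ k, FPj (T k) (y k).l.T)
    (hT : Tendsto (fun k => (T k).pb (fun w => ¬ 2 ^ (α * (S.F k).n) *
      GG (S.dl 1 k) ((y k).g ((p' k).π w)) (ptf s' k ((y k).l.p.π ((p' k).π w))) ≤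
      GG (S.dl 1 k) ((x k).g ((p k).π w)) (ptf s k ((x k).l.p.π ((p k).π w))))) UF (𝓝 0)) :
    α + ul (fun k => lgd s' D y k / (S.F k).n) ≤ ul (fun k => lgd s D x k / (S.F k).n) := by
  obtain ⟨C, hC, h⟩ := logGG_ub s' D
  have t1 := ul_tendsto (lgd_UB s' hy)
  have t2 := (ul_tendsto (lgd_UB s hx)).sub_const α
  have t3 := t2.add (hT.const_mul (C + |α|))
  rw [mul_zero, add_zero] at t3
  have h4 := le_of_tendsto_of_tendsto t1 t3 (by
    filter_upwards [h, hx 1 one_pos, hy 1 one_pos] with k h1 h2 h3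
    have hn := (S.F k).pos
    have hcx : ∀ ω, (x k).l.T.μ ω ≠ 0 → Cpd ((gau s D).cp k) ((x k).g ω) := fun ω hω => (h2.2.2.1 ω hω).1
    have hcy : ∀ ω, (y k).l.T.μ ω ≠ 0 → Cpd ((gau s' D).cp k) ((y k).g ω) := fun ω hω => (h3.2.2.1 ω hω).1
    have e1 : lgd s D x k = ∑ w, (T k).μ w * Real.logb 2 (GG (S.dl 1 k) ((x k).g ((p k).π w))
        (ptf s k ((x k).l.p.π ((p k).π w)))) :=
      (sum_push (p k) (fun ω => Real.logb 2 (GG (S.dl 1 k) ((x k).g ω) (ptf s k ((x k).l.p.π ω))))).symm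
    have e2 : lgd s' D y k = ∑ w, (T k).μ w * Real.logb 2 (GG (S.dl 1 k) ((y k).g ((p' k).π w))
        (ptf s' k ((y k).l.p.π ((p' k).π w)))) :=
      (sum_push (p' k) (fun ω => Real.logb 2 (GG (S.dl 1 k) ((y k).g ω) (ptf s' k ((y k).l.p.π ω))))).symm
    have h5 := exp_le (T k) (fun w => Real.logb 2 (GG (S.dl 1 k) ((x k).g ((p k).π w))
        (ptf s k ((x k).l.p.π ((p k).π w))))) (fun w => Real.logb 2 (GG (S.dl 1 k) ((y k).g ((p' k).π w))
        (ptf s' k ((y k).l.p.π ((p' k).π w))))) (fun w => 2 ^ (α * (S.F k).n) *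
      GG (S.dl 1 k) ((y k).g ((p' k).π w)) (ptf s' k ((y k).l.p.π ((p' k).π w))) ≤
      GG (S.dl 1 k) ((x k).g ((p k).π w)) (ptf s k ((x k).l.p.π ((p k).π w)))) (α * (S.F k).n) (C * (S.F k).n)
      (by
        intro w hw hE
        have a1 := GG_pos' (S.dl 1 k) (hcx _ ((p k).supp w hw)).pdM (ptf s k ((x k).l.p.π ((p k).π w)))
        have a2 := GG_pos' (S.dl 1 k) (hcy _ ((p' k).supp w hw)).pdM (ptf s' k ((y k).l.p.π ((p' k).π w)))
        have a3 := Real.logb_le_logb_of_le (b := 2) (by norm_num) (by positivity) hE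
        rw [Real.logb_mul (by positivity) a2.ne', Real.logb_rpow (by norm_num) (by norm_num)] at a3
        linarith) (by
        intro w hw
        exact h1 _ ((y k).l.p.supp _ ((p' k).supp w hw)) _ (hcy _ ((p' k).supp w hw))) (by
        intro w hw
        exact logGG_nonneg _ (hcx _ ((p k).supp w hw)).pdM _)
    rw [← e1, ← e2] at h5
    rw [div_le_iff₀ hn]
    rw [abs_mul, abs_of_pos hn] at h5
    have e3 : (lgd s D x k / (S.F k).n - α + (C + |α|) * (T k).pb (fun w => ¬ 2 ^ (α * (S.F k).n) *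
      GG (S.dl 1 k) ((y k).g ((p' k).π w)) (ptf s' k ((y k).l.p.π ((p' k).π w))) ≤
      GG (S.dl 1 k) ((x k).g ((p k).π w)) (ptf s k ((x k).l.p.π ((p k).π w))))) * (S.F k).n =
      lgd s D x k - α * (S.F k).n + (C * (S.F k).n + |α| * (S.F k).n) * (T k).pb (fun w => ¬ 2 ^ (α * (S.F k).n) *
      GG (S.dl 1 k) ((y k).g ((p' k).π w)) (ptf s' k ((y k).l.p.π ((p' k).π w))) ≤
      GG (S.dl 1 k) ((x k).g ((p k).π w)) (ptf s k ((x k).l.p.π ((p k).π w)))) := by
      field_simp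
    rw [e3]
    exact h5)
  linarith

/-- optimal forms have the largest volume determinant -/
theorem lgd_le_opt {A B : Part S} (s : Sys S m) {x y : ∀ k, FD (S.F k) (Mon (m + 1) D)}
    (hx : (gau s D).Opt A B x) (hy : (gau s D).Ad A B y) :
    ul (fun k => lgd s D y k / (S.F k).n) ≤ ul (fun k => lgd s D x k / (S.F k).n) := by
  apply le_of_forall_pos_lt_add
  intro e he
  have hm : (0 : ℝ) < m + 1 := by positivity
  set e1 : ℝ := e / (2 * (m + 1)) with he1
  have he1p : 0 < e1 := by positivity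
  have h1 := lgd_le_of s s hx.1 hy (-(m * e1)) (fun k => ((x k).l.am (y k).l).sp) (fun k => ((x k).l.am (y k).l).p1)
    (fun k => ((x k).l.am (y k).l).p2) (by
      have h2 := Gau.Opt.dom (gau s D) hx hy e1 he1p
      refine squeeze_zero' (Eventually.of_forall fun k => FSp.pb_nonneg _ _) ?_ h2
      filter_upwards [hx.1 1 one_pos, hy 1 one_pos] with k a b
      apply FSp.pb_mono
      intro w hw h3 h4
      apply h3
      have hA := (a.2.2.1 _ (((x k).l.am (y k).l).p1.supp w hw)).1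
      have hB := (b.2.2.1 _ (((x k).l.am (y k).l).p2.supp w hw)).1
      have e2 : (x k).l.p.π (((x k).l.am (y k).l).p1.π w) = (y k).l.p.π (((x k).l.am (y k).l).p2.π w) :=
        (x k).jj_supp (y k) w hw
      have hc : (1 : ℝ) ≤ 2 ^ (e1 * (S.F k).n) :=
        Real.one_le_rpow (by norm_num) (mul_nonneg he1p.le (S.F k).pos.le)
      have h5 := GG_scale (S.dl 1 k) ((x k).g (((x k).l.am (y k).l).p1.π w)) ((y k).g (((x k).l.am (y k).l).p2.π w))
        hA.1 hA.pdM.nonneg hB.1 hB.pdM.nonneg (ptf s k ((x k).l.p.π (((x k).l.am (y k).l).p1.π w))) _ hc h4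
      rw [← e2]
      have e3 : ((2 : ℝ) ^ (e1 * (S.F k).n)) ^ m = 2 ^ (m * e1 * (S.F k).n) := by
        rw [← Real.rpow_natCast, ← Real.rpow_mul (by norm_num)]
        congr 1
        ring
      have e4 : (2 : ℝ) ^ (-(m * e1) * (S.F k).n) * 2 ^ (m * e1 * (S.F k).n) = 1 := by
        rw [← Real.rpow_add (by norm_num)]
        have : -(m * e1) * (S.F k).n + m * e1 * (S.F k).n = 0 := by ring
        rw [this, Real.rpow_zero]
      rw [e3] at h5
      calc (2 : ℝ) ^ (-(m * e1) * (S.F k).n) * GG (S.dl 1 k) ((y k).g (((x k).l.am (y k).l).p2.π w))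
            (ptf s k ((x k).l.p.π (((x k).l.am (y k).l).p1.π w))) ≤
          2 ^ (-(m * e1) * (S.F k).n) * (2 ^ (m * e1 * (S.F k).n) *
            GG (S.dl 1 k) ((x k).g (((x k).l.am (y k).l).p1.π w))
            (ptf s k ((x k).l.p.π (((x k).l.am (y k).l).p1.π w)))) :=
            mul_le_mul_of_nonneg_left h5 (by positivity)
        _ = _ := by rw [← mul_assoc, e4, one_mul])
  have h6 : m * e1 < e := by
    have e5 : e1 * (2 * (m + 1)) = e := by rw [he1]; field_simp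
    have : (m : ℝ) * e1 ≤ (m + 1) * e1 := mul_le_mul_of_nonneg_right (by linarith) he1p.le
    nlinarith
  linarith

/-- the logarithmic volume determinant of the window `c` -/
def lvol (s : Sys S m) (D : ℕ) (c : ℝ) : ℝ := ul (fun k => lgd s D (exists_can s D c).choose k / (S.F k).n)

theorem lvol_eq (s : Sys S m) {c : ℝ} {x : ∀ k, FD (S.F k) (Mon (m + 1) D)}
    (hx : (gau s D).Opt (cA s c) (cB s) x) : ul (fun k => lgd s D x k / (S.F k).n) = lvol s D c := by
  have h1 := (exists_can s D c).choose_spec.1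
  exact le_antisymm (lgd_le_opt s h1 hx.1) (lgd_le_opt s hx h1.1)

theorem lgd_le_lvol (s : Sys S m) {c : ℝ} {x : ∀ k, FD (S.F k) (Mon (m + 1) D)}
    (hx : (gau s D).Ad (cA s c) (cB s) x) : ul (fun k => lgd s D x k / (S.F k).n) ≤ lvol s D c :=
  lgd_le_opt s (exists_can s D c).choose_spec.1 hx

theorem lvol_nonneg (s : Sys S m) (c : ℝ) : 0 ≤ lvol s D c := by
  have h1 := (exists_can s D c).choose_spec.1.1
  obtain ⟨C, -, h⟩ := lgd_bounds s h1
  exact ge_of_tendsto (ul_tendsto (lgd_UB s h1)) (h.mono fun k hk => hk.1)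

/-- monotonicity in the window -/
theorem lvol_mono (s : Sys S m) {c c' : ℝ} (h : c ≤ c') : lvol s D c ≤ lvol s D c' := by
  have h1 := (exists_can s D c).choose_spec.1.1
  apply lgd_le_lvol s
  intro η hη
  have h2 : DMc s c' (fun k => ((exists_can s D c).choose k).l) := DMc.mono h (Gau.Ad.dm (gau s D) h1)
  filter_upwards [h1 η hη, h2.1.eventually (gt_mem_nhds hη)] with k a b
  have hn := (S.F k).pos
  rw [div_lt_iff₀ hn] at b
  exact ⟨b.le, a.2.1, a.2.2.1, a.2.2.2.1, a.2.2.2.2⟩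

end

end Pool.Agent.Helper3.PR
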