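import Pool.Agent.Helper3.PR.Tj

/-! Projections of systems: the volume of the window `c` of a generic projection to one dimension less, compared with
the volume of the window `c` of the system, `vol(A_c) ≤ vol(B_c) + 1 - eta(c)`. -/

set_option autoImplicit false

namespace Pool.Agent.Helper3.PR

open Finset Filter Topology Matrix Pool.Agent.Helper69.RK Pool.Agent.Helper31.EC Pool.Agent.Helper40.EL
open Pool.Agent.Helper31.EC.Sp
open Pool.Agent.Helper95.LF Pool.Agent.Helper3.LF Pool.Agent.Helper48.NS Pool.Agent.Helper89.LX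

noncomputable section

variable {S : Sp} {q D : ℕ}

/-- number of directions -/
def NT (S : Sp) (k : ℕ) : ℕ := ⌈(S.F k).n⌉₊ + 1

/-- bound for the entries of the projections -/
def KT (S : Sp) (q k : ℕ) : ℝ := (NT S k : ℝ) ^ q

theorem one_le_NT (k : ℕ) : 1 ≤ NT S k := by unfold NT; omega

theorem NT_Sub (S : Sp) : S.Sub (fun k => (NT S k : ℝ)) := by
  have h1 := ((Sub_n S).add (S.Sub_const (show (0 : ℝ) ≤ 2 by norm_num)))
  refine ⟨Eventually.of_forall fun k => Nat.cast_nonneg _, ?_⟩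
  refine tendsto_of_tendsto_of_tendsto_of_le_of_le tendsto_const_nhds h1.2 (fun k => ?_) (fun k => ?_)
  · exact div_nonneg (Real.logb_nonneg (by norm_num) (by
      have : (0 : ℝ) ≤ (NT S k : ℝ) := Nat.cast_nonneg _
      linarith)) (S.F k).pos.le
  · apply div_le_div_of_nonneg_right _ (S.F k).pos.le
    apply Real.logb_le_logb_of_le (by norm_num)
    · have : (0 : ℝ) ≤ (NT S k : ℝ) := Nat.cast_nonneg _
      linarith
    · have h2 := (Nat.ceil_lt_add_one (S.F k).pos.le).le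
      unfold NT
      push_cast
      linarith

theorem KT_Sub (S : Sp) (q : ℕ) : S.Sub (KT S q) := Sub_pow' (NT_Sub S) q

theorem NT_tendsto (S : Sp) (c : ℝ) (hc : 0 ≤ c) : Tendsto (fun k => c / (NT S k : ℝ)) UF (𝓝 0) := by
  refine tendsto_of_tendsto_of_tendsto_of_le_of_le tendsto_const_nhds (S.div_n_tendsto c) (fun k => ?_) (fun k => ?_)
  · exact div_nonneg hc (Nat.cast_nonneg _)
  · apply div_le_div_of_nonneg_left hc (S.F k).pos
    have h2 := Nat.le_ceil (S.F k).n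
    unfold NT
    push_cast
    linarith

/-- generic projections -/
def prT (s : Sys S (q + 1)) (τ : ℕ → ℕ) (hτ : ∀ k, τ k ≤ NT S k) : Sys S q :=
  pr s (fun k => LT q (τ k)) (KT S q) (KT_Sub S q)
    (Eventually.of_forall fun k i j => LT_le (one_le_NT k) (hτ k) i j)

theorem cGen_Sub (S : Sp) (q : ℕ) : S.Sub (fun k => cGen q (NT S k)) := by
  unfold cGen
  exact (S.Sub_const (Nat.cast_nonneg _)).mul ((S.Sub_const (Nat.cast_nonneg _)).mul (Sub_pow' (KT_Sub S q) (q + 1)))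

/-- the choice of the direction -/
theorem exists_tau (x : ∀ k, FD (S.F k) (Mon (q + 1 + 1) D)) (s : Sys S (q + 1)) :
    ∃ (v : ∀ k, (x k).l.T.Ω → Fin (q + 1) → ℝ) (τ : ℕ → ℕ), (∀ k, τ k ≤ NT S k) ∧
      (∀ k ω, PdM ((x k).g ω) →
        (∀ w, (v k ω ⬝ᵥ w) ^ 2 ≤ w ⬝ᵥ (Jf (S.dl 1 k) ((x k).g ω) (ptf s k ((x k).l.p.π ω)) *ᵥ w)) ∧
        trJ (S.dl 1 k) ((x k).g ω) (ptf s k ((x k).l.p.π ω)) ≤
          nn (q + 1 + 1) D * Fintype.card (Mon (q + 1 + 1) D) * ∑ i, v k ω i ^ 2) ∧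
      Tendsto (fun k => (x k).l.T.pb (fun ω => ¬ ∀ i, |v k ω i| ≤ cGen q (NT S k) * |mcv q (τ k) (v k ω)|))
        UF (𝓝 0) := by
  classical
  have h1 : ∀ k (ω : (x k).l.T.Ω), ∃ g : Fin (q + 1) → ℝ, PdM ((x k).g ω) →
        (∀ w, (g ⬝ᵥ w) ^ 2 ≤ w ⬝ᵥ (Jf (S.dl 1 k) ((x k).g ω) (ptf s k ((x k).l.p.π ω)) *ᵥ w)) ∧
        trJ (S.dl 1 k) ((x k).g ω) (ptf s k ((x k).l.p.π ω)) ≤
          nn (q + 1 + 1) D * Fintype.card (Mon (q + 1 + 1) D) * ∑ i, g i ^ 2 := by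
    intro k ω
    by_cases hA : PdM ((x k).g ω)
    · obtain ⟨g, h2, h3⟩ := exists_gv ((x k).g ω) hA (S.dl 1 k) (ptf s k ((x k).l.p.π ω))
      exact ⟨g, fun _ => ⟨h2, h3⟩⟩
    · exact ⟨0, fun h => absurd h hA⟩
  choose v hv using h1
  have h2 : ∀ k, ∃ τ : ℕ, τ < NT S k ∧ (x k).l.T.pb
      (fun ω => ¬ ∀ i, |v k ω i| ≤ cGen q (NT S k) * |mcv q τ (v k ω)|) ≤ (q : ℝ) / (NT S k : ℝ) := by
    intro k
    obtain ⟨τ, h3, h4⟩ := gen_fin (x k).l.T.μ (x k).l.T.nn (le_of_eq (sum_mu (x k).l.T)) q (NT S k)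
      (one_le_NT k) (v k)
    refine ⟨τ, h3, le_trans (le_of_eq ?_) h4⟩
    rw [pb_sum]
    refine Finset.sum_congr rfl fun ω _ => ?_
    by_cases h5 : ∀ i, |v k ω i| ≤ cGen q (NT S k) * |mcv q τ (v k ω)|
    · rw [if_neg (not_not.mpr h5), if_pos h5, mul_zero]
    · rw [if_pos h5, if_neg h5, mul_one]
  choose τ hτ1 hτ2 using h2
  refine ⟨v, τ, fun k => (hτ1 k).le, hv, ?_⟩
  exact squeeze_zero' (Eventually.of_forall fun k => FSp.pb_nonneg _ _) (Eventually.of_forall hτ2)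
    (NT_tendsto S q (Nat.cast_nonneg q))

/-- the constant of the local inequality is subexponential -/
theorem const_le (S : Sp) (q D : ℕ) (e : ℝ) (he : 0 < e) : ∀ᶠ k in UF,
    (1 + nn (q + 1 + 1) D * Fintype.card (Mon (q + 1 + 1) D) * ((q + 1 : ℕ) * cGen q (NT S k) ^ 2)) *
      ((((q + 1).factorial : ℝ) * ((NT S k : ℝ) ^ q) ^ (q + 1)) ^ 2 *
        (cT q D ((NT S k : ℝ) ^ q) (2 ^ (e * (S.F k).n)) + 1) ^ (q + 1)) ≤ 2 ^ ((q + 2) * e * (S.F k).n) := by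
  have hn1 := nn_one (q + 1 + 1) D
  have hn2 := nn_one (q + 1) D
  have hCu := Cu_one D
  have hCm := Cm_one (q + 1 + 1) D
  set L3 : ℕ → ℝ := fun k => q * ((q + 1 : ℕ) * KT S q k ^ 2) +
    nn (q + 1) D * (Cu D * Cm (q + 1 + 1) D * (q * KT S q k + 1) ^ D) ^ 2 + 2 with hL3
  set L4 : ℕ → ℝ := fun k => (1 + nn (q + 1 + 1) D * Fintype.card (Mon (q + 1 + 1) D) *
    ((q + 1 : ℕ) * cGen q (NT S k) ^ 2)) *
      ((((q + 1).factorial : ℝ) * (KT S q k) ^ (q + 1)) ^ 2 * L3 k ^ (q + 1)) with hL4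
  have hK := KT_Sub S q
  have h3 : S.Sub L3 := by
    refine (Sp.Sub.add ?_ ?_).add (S.Sub_const (by norm_num))
    · exact (S.Sub_const (Nat.cast_nonneg _)).mul ((S.Sub_const (Nat.cast_nonneg _)).mul (Sub_pow' hK 2))
    · exact (S.Sub_const (by linarith)).mul (Sub_pow' ((S.Sub_const (by positivity)).mul
        (Sub_pow' (((S.Sub_const (Nat.cast_nonneg _)).mul hK).add (S.Sub_const zero_le_one)) D)) 2)
  have h4 : S.Sub L4 := by
    refine Sp.Sub.mul ?_ (Sp.Sub.mul ?_ (Sub_pow' h3 (q + 1)))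
    · exact (S.Sub_const zero_le_one).add ((S.Sub_const (by positivity)).mul
        ((S.Sub_const (Nat.cast_nonneg _)).mul (Sub_pow' (cGen_Sub S q) 2)))
    · exact Sub_pow' ((S.Sub_const (Nat.cast_nonneg _)).mul (Sub_pow' hK (q + 1))) 2
  filter_upwards [h4.eventually_le he] with k h5
  have hn := (S.F k).pos
  have hc1 : (1 : ℝ) ≤ 2 ^ (e * (S.F k).n) := Real.one_le_rpow (by norm_num) (by positivity)
  have hKk : 0 ≤ KT S q k := by unfold KT; positivity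
  have h6 : cT q D ((NT S k : ℝ) ^ q) (2 ^ (e * (S.F k).n)) + 1 ≤ L3 k * 2 ^ (e * (S.F k).n) := by
    show cT q D (KT S q k) (2 ^ (e * (S.F k).n)) + 1 ≤ (q * ((q + 1 : ℕ) * KT S q k ^ 2) +
      nn (q + 1) D * (Cu D * Cm (q + 1 + 1) D * (q * KT S q k + 1) ^ D) ^ 2 + 2) * 2 ^ (e * (S.F k).n)
    unfold cT
    have h7 : 0 ≤ (q : ℝ) * ((q + 1 : ℕ) * KT S q k ^ 2) := by positivity
    nlinarith
  have h8 : 0 ≤ cT q D ((NT S k : ℝ) ^ q) (2 ^ (e * (S.F k).n)) + 1 := by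
    have := cT_pos (q := q) (D := D) ((NT S k : ℝ) ^ q) (2 ^ (e * (S.F k).n)) (by linarith)
    linarith
  have h9 := pow_le_pow_left₀ h8 h6 (q + 1)
  have h10 : 0 ≤ 1 + nn (q + 1 + 1) D * Fintype.card (Mon (q + 1 + 1) D) *
      ((q + 1 : ℕ) * cGen q (NT S k) ^ 2) := by positivity
  calc (1 + nn (q + 1 + 1) D * Fintype.card (Mon (q + 1 + 1) D) * ((q + 1 : ℕ) * cGen q (NT S k) ^ 2)) *
      ((((q + 1).factorial : ℝ) * ((NT S k : ℝ) ^ q) ^ (q + 1)) ^ 2 *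
        (cT q D ((NT S k : ℝ) ^ q) (2 ^ (e * (S.F k).n)) + 1) ^ (q + 1)) ≤
      (1 + nn (q + 1 + 1) D * Fintype.card (Mon (q + 1 + 1) D) * ((q + 1 : ℕ) * cGen q (NT S k) ^ 2)) *
      ((((q + 1).factorial : ℝ) * ((NT S k : ℝ) ^ q) ^ (q + 1)) ^ 2 *
        (L3 k * 2 ^ (e * (S.F k).n)) ^ (q + 1)) :=
        mul_le_mul_of_nonneg_left (mul_le_mul_of_nonneg_left h9 (by positivity)) h10
    _ = L4 k * (2 ^ (e * (S.F k).n)) ^ (q + 1) := by
        rw [hL4]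
        simp only [KT]
        ring_nf
    _ ≤ 2 ^ (e * (S.F k).n) * (2 ^ (e * (S.F k).n)) ^ (q + 1) :=
        mul_le_mul_of_nonneg_right (by linarith) (by positivity)
    _ = _ := by
        rw [← pow_succ', ← Real.rpow_natCast, ← Real.rpow_mul (by norm_num)]
        congr 1
        push_cast
        ring

theorem lgd_pr_aux (s : Sys S (q + 1)) {c σ : ℝ} (h0 : 0 ≤ c) (h1 : c < 1) (hσ : Hf s D c σ)
    (hcσ : c < σ ∨ σ ≤ 0) {x : ∀ k, FD (S.F k) (Mon (q + 1 + 1) D)} (hx : (gau s D).Opt (cA s c) (cB s) x)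
    (v : ∀ k, (x k).l.T.Ω → Fin (q + 1) → ℝ) (τ : ℕ → ℕ) (hτ : ∀ k, τ k ≤ NT S k)
    (hv : ∀ k ω, PdM ((x k).g ω) →
        (∀ w, (v k ω ⬝ᵥ w) ^ 2 ≤ w ⬝ᵥ (Jf (S.dl 1 k) ((x k).g ω) (ptf s k ((x k).l.p.π ω)) *ᵥ w)) ∧
        trJ (S.dl 1 k) ((x k).g ω) (ptf s k ((x k).l.p.π ω)) ≤
          nn (q + 1 + 1) D * Fintype.card (Mon (q + 1 + 1) D) * ∑ i, v k ω i ^ 2)
    (hg : Tendsto (fun k => (x k).l.T.pb (fun ω => ¬ ∀ i, |v k ω i| ≤ cGen q (NT S k) * |mcv q (τ k) (v k ω)|))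
        UF (𝓝 0))
    {y : ∀ k, FD (S.F k) (Mon (q + 1) D)}
    (hy : (gau (prT s τ hτ) D).Ad (cA (prT s τ hτ) c) (cB (prT s τ hτ)) y) (e : ℝ) (he : 0 < e) :
    (2 * σ - (q + 4) * e) + ul (fun k => lgd (prT s τ hτ) D y k / (S.F k).n) ≤
      ul (fun k => lgd s D x k / (S.F k).n) := by
  have hz := pbf_ad s (fun k => LT q (τ k)) (KT S q) (KT_Sub S q)
    (Eventually.of_forall fun k i j => LT_le (one_le_NT k) (hτ k) i j) hy
  have hzt := pbf_typ s (fun k => LT q (τ k)) (KT S q) (KT_Sub S q)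
    (Eventually.of_forall fun k i j => LT_le (one_le_NT k) (hτ k) i j) hy
  set z := cutFD (gau s D) (lb y) (pbf (fun k => LT q (τ k)) y) (pbf_meas (fun k => LT q (τ k)) y) with hzd
  refine lgd_le_of s (prT s τ hτ) hx.1 hy _ (fun k => ((x k).l.am (z k).l).sp) (fun k => ((x k).l.am (z k).l).p1)
    (fun k => ((x k).l.am (z k).l).p2) ?_
  have t1 := Gau.Opt.dom (gau s D) hx hz e he
  have t2 : Tendsto (fun k => (y k).l.T.pb (fun ω => ¬ Cpd ((gau s D).cp k) (pbf (fun k => LT q (τ k)) y k ω)))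
    UF (𝓝 0) := hzt
  have t3 : Tendsto (fun k => (x k).l.T.pb (fun ω => ¬ 2 ^ (2 * (σ - e) * (S.F k).n) ≤
      1 + trJ (S.dl 1 k) ((x k).g ω) (ptf s k ((x k).l.p.π ω)))) UF (𝓝 0) := trJ_typ s h0 h1 hσ hcσ hx e he
  have t4 := ((t1.add t2).add t3).add hg
  rw [add_zero, add_zero, add_zero] at t4
  refine squeeze_zero' (Eventually.of_forall fun k => FSp.pb_nonneg _ _) ?_ t4
  filter_upwards [hx.1 1 one_pos, hy 1 one_pos, const_le S q D e he] with k a b hcst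
  have q2 : ((x k).l.am (z k).l).sp.pb (fun w => ¬ Cpd ((gau s D).cp k) (pbf (fun k => LT q (τ k)) y k
      (((x k).l.am (z k).l).p2.π w))) =
      (y k).l.T.pb (fun ω => ¬ Cpd ((gau s D).cp k) (pbf (fun k => LT q (τ k)) y k ω)) :=
    pb_push (F := (y k).l.T) ((x k).l.am (z k).l).p2
      (fun ω => ¬ Cpd ((gau s D).cp k) (pbf (fun k => LT q (τ k)) y k ω))
  have q3 : ((x k).l.am (z k).l).sp.pb (fun w => ¬ 2 ^ (2 * (σ - e) * (S.F k).n) ≤
      1 + trJ (S.dl 1 k) ((x k).g (((x k).l.am (z k).l).p1.π w))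
        (ptf s k ((x k).l.p.π (((x k).l.am (z k).l).p1.π w)))) =
      (x k).l.T.pb (fun ω => ¬ 2 ^ (2 * (σ - e) * (S.F k).n) ≤
      1 + trJ (S.dl 1 k) ((x k).g ω) (ptf s k ((x k).l.p.π ω))) :=
    pb_push ((x k).l.am (z k).l).p1 (fun ω => ¬ 2 ^ (2 * (σ - e) * (S.F k).n) ≤
      1 + trJ (S.dl 1 k) ((x k).g ω) (ptf s k ((x k).l.p.π ω)))
  have q4 : ((x k).l.am (z k).l).sp.pb (fun w => ¬ ∀ i, |v k (((x k).l.am (z k).l).p1.π w) i| ≤
      cGen q (NT S k) * |mcv q (τ k) (v k (((x k).l.am (z k).l).p1.π w))|) =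
      (x k).l.T.pb (fun ω => ¬ ∀ i, |v k ω i| ≤ cGen q (NT S k) * |mcv q (τ k) (v k ω)|) :=
    pb_push ((x k).l.am (z k).l).p1 (fun ω => ¬ ∀ i, |v k ω i| ≤ cGen q (NT S k) * |mcv q (τ k) (v k ω)|)
  rw [← q2, ← q3, ← q4]
  refine le_trans (FSp.pb_mono _ (E' := fun w : ((x k).l.am (z k).l).sp.Ω =>
    (((¬ ∀ v, qf (((x k).jj (z k)).g' w) v ≤ 2 ^ (e * (S.F k).n) * qf (((x k).jj (z k)).g w) v) ∨
    (¬ Cpd ((gau s D).cp k) (pbf (fun k => LT q (τ k)) y k (((x k).l.am (z k).l).p2.π w)))) ∨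
    (¬ 2 ^ (2 * (σ - e) * (S.F k).n) ≤ 1 + trJ (S.dl 1 k) ((x k).g (((x k).l.am (z k).l).p1.π w))
      (ptf s k ((x k).l.p.π (((x k).l.am (z k).l).p1.π w))))) ∨
    (¬ ∀ i, |v k (((x k).l.am (z k).l).p1.π w) i| ≤
      cGen q (NT S k) * |mcv q (τ k) (v k (((x k).l.am (z k).l).p1.π w))|)) ?_) ?_
  · intro w hw h6
    by_contra hc
    rw [not_or, not_or, not_or, not_not, not_not, not_not, not_not] at hc
    obtain ⟨⟨⟨c1, c2⟩, c3⟩, c4⟩ := hc
    apply h6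
    have e1 : (x k).l.p.π (((x k).l.am (z k).l).p1.π w) = (y k).l.p.π (((x k).l.am (z k).l).p2.π w) :=
      (x k).jj_supp (z k) w hw
    have hA := (a.2.2.1 _ (((x k).l.am (z k).l).p1.supp w hw)).1
    have hB := (b.2.2.1 _ (((x k).l.am (z k).l).p2.supp w hw)).1
    set ω1 : (x k).l.T.Ω := ((x k).l.am (z k).l).p1.π w with hω1
    set ω2 : (y k).l.T.Ω := ((x k).l.am (z k).l).p2.π w with hω2
    set A := (x k).g ω1 with hAd
    set B := (y k).g ω2 with hBd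
    have hn := (S.F k).pos
    have hc1 : (1 : ℝ) ≤ 2 ^ (e * (S.F k).n) := Real.one_le_rpow (by norm_num) (mul_nonneg he.le hn.le)
    have hzg : ((x k).jj (z k)).g' w = 1 + pbk (LT q (τ k)) B := by
      show cutm ((gau s D).cp k) (pbf (fun k => LT q (τ k)) y k ω2) = _
      unfold cutm
      rw [if_pos c2]
      rfl
    have hxg : ((x k).jj (z k)).g w = A := rfl
    rw [hzg, hxg] at c1
    obtain ⟨g1, g2⟩ := hv k ω1 hA.pdM
    have h7 := GG_proj A hA.pdM B hB.pdM (S.dl 1 k) (S.dl_pos 1 k) (ptf s k ((x k).l.p.π ω1)) (τ k) (NT S k)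
      (one_le_NT k) (hτ k) (2 ^ (e * (S.F k).n)) (by linarith) (by
        intro u
        have h8 := c1 u
        unfold qf at h8
        rw [dv_add, Matrix.one_mulVec] at h8
        have := dot_self_nonneg u
        linarith) (v k ω1) (nn (q + 1 + 1) D * Fintype.card (Mon (q + 1 + 1) D)) (by
        have := nn_one (q + 1 + 1) D
        positivity) g1 g2 c4
    have h8 : ext (LT q (τ k)) (ptf s k ((x k).l.p.π ω1)) = ptf (prT s τ hτ) k ((y k).l.p.π ω2) := by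
      rw [e1]
      exact (ptf_pr s (fun k => LT q (τ k)) (KT S q) (KT_Sub S q)
        (Eventually.of_forall fun k i j => LT_le (one_le_NT k) (hτ k) i j) k _).symm
    rw [h8] at h7
    have hGA : 0 ≤ GG (S.dl 1 k) A (ptf s k ((x k).l.p.π ω1)) := (GG_pos' _ hA.pdM _).le
    have hGB : 0 ≤ GG (S.dl 1 k) B (ptf (prT s τ hτ) k ((y k).l.p.π ω2)) := (GG_pos' _ hB.pdM _).le
    have h9 : 2 ^ (2 * (σ - e) * (S.F k).n) * GG (S.dl 1 k) B (ptf (prT s τ hτ) k ((y k).l.p.π ω2)) ≤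
        2 ^ ((q + 2) * e * (S.F k).n) * GG (S.dl 1 k) A (ptf s k ((x k).l.p.π ω1)) :=
      (mul_le_mul_of_nonneg_right c3 hGB).trans (h7.trans (mul_le_mul_of_nonneg_right hcst hGA))
    have h10 : (2 : ℝ) ^ (2 * (σ - e) * (S.F k).n) =
        2 ^ ((q + 2) * e * (S.F k).n) * 2 ^ ((2 * σ - (q + 4) * e) * (S.F k).n) := by
      rw [← Real.rpow_add (by norm_num)]
      congr 1
      ring
    rw [h10, mul_assoc] at h9
    exact le_of_mul_le_mul_left h9 (by positivity)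
  · exact (pb_or _ _ _).trans (add_le_add ((pb_or _ _ _).trans (add_le_add (pb_or _ _ _) le_rfl)) le_rfl)

/-- THE GENERIC PROJECTION: `vol(A_c) ≤ vol(B_c) + 1 - eta(c)`; here `vol = m - lvol / 2` -/
theorem lvol_pr (s : Sys S (q + 1)) {c σ : ℝ} (h0 : 0 ≤ c) (h1 : c < 1) (hσ : Hf s D c σ)
    (hcσ : c < σ ∨ σ ≤ 0) : ∃ (τ : ℕ → ℕ) (hτ : ∀ k, τ k ≤ NT S k),
      2 * σ + lvol (prT s τ hτ) D c ≤ lvol s D c := by
  obtain ⟨x, hx, -⟩ := exists_can s D c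
  obtain ⟨v, τ, hτ, hv, hg⟩ := exists_tau x s
  refine ⟨τ, hτ, ?_⟩
  obtain ⟨y, hy, -⟩ := exists_can (prT s τ hτ) D c
  rw [← lvol_eq s hx, ← lvol_eq (prT s τ hτ) hy]
  apply le_of_forall_pos_le_add
  intro e he
  have h2 := lgd_pr_aux s h0 h1 hσ hcσ hx v τ hτ hv hg hy.1 (e / (q + 4)) (by positivity)
  have h3 : (q + 4 : ℝ) * (e / (q + 4)) = e := by field_simp
  rw [h3] at h2
  linarith

end

end Pool.Agent.Helper3.PR
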