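import Pool.Agent.Helper3.PR.Prj

/-! Upper bounds of the regular volume determinant; the averaged logarithm `lgd`. -/

set_option autoImplicit false

namespace Pool.Agent.Helper3.PR

open Finset Filter Topology Matrix Pool.Agent.Helper69.RK Pool.Agent.Helper31.EC Pool.Agent.Helper40.EL
open Pool.Agent.Helper31.EC.Sp
open Pool.Agent.Helper95.LF Pool.Agent.Helper3.LF Pool.Agent.Helper48.NS Pool.Agent.Helper89.LX

noncomputable section

variable {S : Sp} {m D : ℕ}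

theorem trJ_nonneg (r : ℝ) {A : Matrix (Mon (m + 1) D) (Mon (m + 1) D) ℝ} (hA : ∀ x, 0 ≤ x ⬝ᵥ (A *ᵥ x))
    (p : Fin (m + 1) → ℝ) : 0 ≤ trJ r A p :=
  Finset.sum_nonneg fun _ _ => Finset.sum_nonneg fun _ _ => hA _

theorem trJ_le_gam (r : ℝ) {A : Matrix (Mon (m + 1) D) (Mon (m + 1) D) ℝ} (hA : ∀ x, 0 ≤ x ⬝ᵥ (A *ᵥ x))
    (p : Fin (m + 1) → ℝ) : trJ r A p ≤ gam r A p := by
  rw [gam_split]
  have : 0 ≤ ∑ j : Fin (m + 1) → Fin (D + 1), dd 0 (nodp D p r j) ⬝ᵥ (A *ᵥ dd 0 (nodp D p r j)) :=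
    Finset.sum_nonneg fun _ _ => hA _
  linarith

/-- `J` is bounded by its trace -/
theorem Jf_le_trJ (r : ℝ) (A : Matrix (Mon (m + 1) D) (Mon (m + 1) D) ℝ) (hA : PdM A) (p : Fin (m + 1) → ℝ)
    (e : Fin m → ℝ) : e ⬝ᵥ (Jf r A p *ᵥ e) ≤ trJ r A p * (e ⬝ᵥ e) := by
  obtain ⟨C', hC, -⟩ := exists_factor A hA
  rw [hC, Jf_rows, trJ_rows]
  unfold ph
  rw [Finset.sum_comm, Finset.sum_mul]
  refine Finset.sum_le_sum fun j _ => ?_
  rw [Finset.sum_mul]
  refine Finset.sum_le_sum fun k _ => ?_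
  have e1 : MvPolynomial.eval (nodp D p r j) (dir e (pol (C' k))) =
      ∑ i : Fin m, MvPolynomial.eval (nodp D p r j) (MvPolynomial.pderiv i.succ (pol (C' k))) * e i := by
    unfold dir
    rw [map_sum]
    refine Finset.sum_congr rfl fun i _ => ?_
    rw [map_mul, MvPolynomial.eval_C, mul_comm]
  rw [e1]
  refine (Finset.sum_mul_sq_le_sq_mul_sq _ _ _).trans (le_of_eq ?_)
  congr 1
  unfold dotProduct
  exact Finset.sum_congr rfl fun i _ => by ring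

theorem GG_le_trJ (r : ℝ) (A : Matrix (Mon (m + 1) D) (Mon (m + 1) D) ℝ) (hA : PdM A) (p : Fin (m + 1) → ℝ) :
    GG r A p ≤ (1 + trJ r A p) ^ m := by
  have h0 := trJ_nonneg r hA.nonneg p
  have h1 := det_le_pow_one (one_Jf_pd r hA.1 hA.nonneg p) (K := 1 + trJ r A p) (by linarith) (fun x => by
    rw [dv_add, one_dv]
    have := Jf_le_trJ r A hA p x
    linarith)
  rw [Fintype.card_fin] at h1
  exact h1

/-- exponential upper bound -/
theorem GG_ub (s : Sys S m) (D : ℕ) : ∃ C : ℝ, 0 ≤ C ∧ ∀ᶠ k in UF, ∀ ω, (S.F k).μ ω ≠ 0 →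
    ∀ A : Matrix (Mon (m + 1) D) (Mon (m + 1) D) ℝ, Cpd ((gau s D).cp k) A →
      GG (S.dl 1 k) A (ptf s k ω) ≤ 2 ^ (C * (S.F k).n) := by
  obtain ⟨K, hK, hb⟩ := ptf_bd s
  have hnn := nn_one (m + 1) D
  have hCm := Cm_one (m + 1) D
  set L : ℕ → ℝ := fun k => ((m + 1 : ℕ) * nn (m + 1) D * Cm (m + 1) D ^ 2) *
    (nn (m + 1) D * Fintype.card (Mon (m + 1) D) * (K k + 1) ^ (2 * D)) with hL
  have hLs : S.Sub L := by
    refine (S.Sub_const (by positivity)).mul ((S.Sub_const (by positivity)).mul ?_)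
    exact Sub_pow' (hK.add (S.Sub_const zero_le_one)) _
  refine ⟨m * (2 * D + 6), by positivity, ?_⟩
  filter_upwards [hb, hK.1, hLs.eventually_le one_pos, eventually_le_two_pow S 2] with k h1 hK0 h2 h3 ω hω A hA
  have hr := S.dl_pos 1 k
  have hpd : PdM A := pdM_of_one_le hA.1 hA.2.1
  have h4 := phi_le A ((gau s D).cp k) hA.2.2 (by have := (gau s D).one_le_cp k; linarith) (S.dl 1 k) (K k + 1)
    hr.le (by linarith) (ptf s k ω) (fun i => add_le_add (h1 ω hω i) (dl_one_le S k))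
  have h5 := gam_le A hpd (S.dl 1 k) hr (ptf s k ω)
  have h6 := trJ_le_gam (S.dl 1 k) hpd.nonneg (ptf s k ω)
  have h7 := trJ_nonneg (S.dl 1 k) hpd.nonneg (ptf s k ω)
  have hn := (S.F k).pos
  have hcp : (gau s D).cp k = 2 ^ ((2 * D + 2) * (S.F k).n) := by
    unfold Gau.cp gau
    congr 1
    ring
  have hdl : S.dl 1 k ^ 2 * 2 ^ (2 * (S.F k).n) = 1 := by
    unfold dl
    rw [← Real.rpow_natCast, ← Real.rpow_mul (by norm_num), ← Real.rpow_add (by norm_num)]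
    have : -(1 * (S.F k).n) * ((2 : ℕ) : ℝ) + 2 * (S.F k).n = 0 := by push_cast; ring
    rw [this, Real.rpow_zero]
  have h8 : gam (S.dl 1 k) A (ptf s k ω) ≤ 2 ^ (2 * (S.F k).n) * (L k * 2 ^ ((2 * D + 2) * (S.F k).n)) := by
    have h9 : S.dl 1 k ^ 2 * gam (S.dl 1 k) A (ptf s k ω) ≤ L k * 2 ^ ((2 * D + 2) * (S.F k).n) := by
      refine h5.trans ?_
      rw [hL, ← hcp]
      calc ((m + 1 : ℕ) : ℝ) * nn (m + 1) D * Cm (m + 1) D ^ 2 * phi (S.dl 1 k) A (ptf s k ω) ≤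
          ((m + 1 : ℕ) : ℝ) * nn (m + 1) D * Cm (m + 1) D ^ 2 *
            (nn (m + 1) D * Fintype.card (Mon (m + 1) D) * (K k + 1) ^ (2 * D) * (gau s D).cp k) :=
            mul_le_mul_of_nonneg_left h4 (by positivity)
        _ = _ := by ring
    calc gam (S.dl 1 k) A (ptf s k ω) = 2 ^ (2 * (S.F k).n) * (S.dl 1 k ^ 2 * gam (S.dl 1 k) A (ptf s k ω)) := by
          rw [← mul_assoc, mul_comm ((2 : ℝ) ^ (2 * (S.F k).n)), hdl, one_mul]
      _ ≤ _ := mul_le_mul_of_nonneg_left h9 (by positivity)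
  have h10 : L k ≤ 2 ^ (1 * (S.F k).n) := by linarith
  have hx : ∀ a : ℝ, 0 ≤ a → (1 : ℝ) ≤ 2 ^ (a * (S.F k).n) := fun a ha =>
    Real.one_le_rpow (by norm_num) (mul_nonneg ha hn.le)
  have h11 : 1 + trJ (S.dl 1 k) A (ptf s k ω) ≤ 2 ^ ((2 * D + 6) * (S.F k).n) := by
    have h12 : trJ (S.dl 1 k) A (ptf s k ω) ≤ 2 ^ ((2 * D + 5) * (S.F k).n) := by
      refine (h6.trans h8).trans ?_
      have h13 : (2 : ℝ) ^ ((2 * D + 5) * (S.F k).n) =
          2 ^ (2 * (S.F k).n) * (2 ^ (1 * (S.F k).n) * 2 ^ ((2 * D + 2) * (S.F k).n)) := by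
        rw [← Real.rpow_add (by norm_num), ← Real.rpow_add (by norm_num)]
        congr 1
        ring
      rw [h13]
      gcongr
    have h14 : (2 : ℝ) ^ ((2 * D + 6) * (S.F k).n) = 2 ^ (S.F k).n * 2 ^ ((2 * D + 5) * (S.F k).n) := by
      rw [← Real.rpow_add (by norm_num)]
      congr 1
      ring
    rw [h14]
    have h15 := hx (2 * D + 5) (by positivity)
    have h16 : (2 : ℝ) * 2 ^ ((2 * D + 5) * (S.F k).n) ≤ 2 ^ (S.F k).n * 2 ^ ((2 * D + 5) * (S.F k).n) :=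
      mul_le_mul_of_nonneg_right h3 (by positivity)
    linarith
  refine (GG_le_trJ _ A hpd _).trans ((pow_le_pow_left₀ (by linarith) h11 m).trans (le_of_eq ?_))
  rw [← Real.rpow_natCast, ← Real.rpow_mul (by norm_num)]
  congr 1
  ring

end

end Pool.Agent.Helper3.PR
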