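import Pool.Agent.Helper3.PR.Loc
import Pool.Agent.Helper3.LF.Adm

/-! Projections of systems (KAPPA 1.4): labels of the projection are labels of the system; pull-back of forms. -/

set_option autoImplicit false

namespace Pool.Agent.Helper3.PR

open Finset Filter Topology Matrix Pool.Agent.Helper69.RK Pool.Agent.Helper31.EC Pool.Agent.Helper40.EL
open Pool.Agent.Helper31.EC.Sp
open Pool.Agent.Helper95.LF Pool.Agent.Helper3.LF Pool.Agent.Helper48.NS Pool.Agent.Helper89.LX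

noncomputable section

variable {S : Sp} {q m : ℕ}

/-- digits of a linear image -/
theorem lin_dg_le (M : ℕ → Fin q → Fin m → ℝ) (K : ℕ → ℝ) (hK : S.Sub K)
    (hM : ∀ᶠ k in UF, ∀ i j, |M k i j| ≤ K k) (y : S.VV m) (r : ℝ) : (VV.lin M K hK hM y).dg r ≤ y.dg r := by
  apply VV.dg_le_dg _ _ _ _ (fun _ _ => True) Typ_true (fun k => m * K k)
    ((S.Sub_const (Nat.cast_nonneg m)).mul hK)
  filter_upwards [hM, hK.1] with k h1 h2 ω ω' _ _ _ _ _ h3 i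
  show |∑ j, M k i j * y.v k ω j - ∑ j, M k i j * y.v k ω' j| ≤ _
  rw [← Finset.sum_sub_distrib]
  have h4 : ∀ j ∈ (Finset.univ : Finset (Fin m)), |M k i j * y.v k ω j - M k i j * y.v k ω' j| ≤
      K k * S.dl r k := by
    intro j _
    rw [← mul_sub, abs_mul]
    exact mul_le_mul (h1 i j) (h3 j) (abs_nonneg _) h2
  refine (Finset.abs_sum_le_sum_abs _ _).trans ((Finset.sum_le_card_nsmul _ _ _ h4).trans (le_of_eq ?_))
  rw [nsmul_eq_mul, Finset.card_univ, Fintype.card_fin]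
  ring

/-- the image of a system under a linear map of the space variables -/
def pr (s : Sys S m) (M : ℕ → Matrix (Fin q) (Fin m) ℝ) (K : ℕ → ℝ) (hK : S.Sub K)
    (hM : ∀ᶠ k in UF, ∀ i j, |M k i j| ≤ K k) : Sys S q where
  a := VV.lin M K hK hM s.a
  x := VV.lin M K hK hM s.x
  t := s.t
  ht := by
    apply le_antisymm
    · have h1 := h_le_H (s.t.dg 1) ((VV.lin M K hK hM s.a).dg 1 ⊔ (VV.lin M K hK hM s.x).dg 1)
      have h2 := s.t.H_dg_le zero_le_one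
      simp only [Nat.cast_one, mul_one] at h2
      linarith
    · have h1 : h (s.t.dg 1) (s.a.dg 1 ⊔ s.x.dg 1) ≤
          h (s.t.dg 1) ((VV.lin M K hK hM s.a).dg 1 ⊔ (VV.lin M K hK hM s.x).dg 1) :=
        h_anti (sup_le_sup (lin_dg_le M K hK hM _ _) (lin_dg_le M K hK hM _ _))
      rw [s.ht] at h1
      exact h1

variable (s : Sys S m) (M : ℕ → Matrix (Fin q) (Fin m) ℝ) (K : ℕ → ℝ) (hK : S.Sub K)
    (hM : ∀ᶠ k in UF, ∀ i j, |M k i j| ≤ K k)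

theorem pr_t : (pr s M K hK hM).t = s.t := rfl

/-- points -/
theorem ptf_pr (k : ℕ) (ω : (S.F k).Ω) : ptf (pr s M K hK hM) k ω = ext (M k) (ptf s k ω) := by
  unfold ptf
  rw [ext_pl]
  rfl

theorem pr_P_v (k : ℕ) (ω : (S.F k).Ω) (i : Fin q) :
    (pr s M K hK hM).P.v k ω i = ∑ j, M k i j * s.P.v k ω j := by
  show (∑ j, M k i j * s.a.v k ω j) + s.t.v k ω 0 * (∑ j, M k i j * s.x.v k ω j) =
    ∑ j, M k i j * (s.a.v k ω j + s.t.v k ω 0 * s.x.v k ω j)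
  rw [Finset.mul_sum, ← Finset.sum_add_distrib]
  exact Finset.sum_congr rfl fun j _ => by ring

theorem pr_P_dg (r : ℝ) : (pr s M K hK hM).P.dg r ≤ s.P.dg r := by
  refine le_trans ?_ (lin_dg_le M K hK hM s.P r)
  apply VV.dg_le_dg _ _ _ _ (fun _ _ => True) Typ_true (fun _ => 1) (S.Sub_const zero_le_one)
  refine Eventually.of_forall fun k ω ω' _ _ _ _ _ h3 i => ?_
  rw [pr_P_v, pr_P_v, one_mul]
  exact h3 i

theorem pr_a_dg (r : ℝ) : (pr s M K hK hM).a.dg r ≤ s.a.dg r := lin_dg_le M K hK hM _ _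

theorem pr_x_dg (r : ℝ) : (pr s M K hK hM).x.dg r ≤ s.x.dg r := lin_dg_le M K hK hM _ _

theorem lA_pr (c : ℝ) : lA (pr s M K hK hM) c ≤ lA s c :=
  sup_le_sup_right (sup_le_sup (pr_a_dg s M K hK hM 1) (pr_x_dg s M K hK hM 1)) _

theorem lB_pr : lB (pr s M K hK hM) ≤ lB s := sup_le_sup_right (pr_P_dg s M K hK hM 1) _

/-- labels of the projection are labels of the system -/
theorem DMc_pr {c : ℝ} {l : Lab S} (hl : DMc (pr s M K hK hM) c l) : DMc s c l := by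
  rw [DMc_iff] at hl ⊢
  exact hl.mono (lA_pr s M K hK hM c) (lB_pr s M K hK hM)

theorem ic_pr (c : ℝ) : ic (pr s M K hK hM) c ≤ ic s c := by
  have h1 := info_le_ic (DMc_pr s M K hK hM (kap_isKap (pr s M K hK hM) c).dm)
  unfold ic at h1 ⊢
  linarith

/-! ### forms cut off at the cap -/

section cut

variable {ι : Type} [Fintype ι] [DecidableEq ι] (Φ : Gau S ι)

open Classical in
/-- a form, or the identity if it is above the cap -/
def cutm (c : ℝ) (A : Matrix ι ι ℝ) : Matrix ι ι ℝ := if Cpd c A then A else 1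

theorem cutm_cpd {c : ℝ} (hc : 1 ≤ c) (A : Matrix ι ι ℝ) : Cpd c (cutm c A) := by
  unfold cutm
  split_ifs with h
  · exact h
  · exact Cpd_one hc

/-- labels with a form, cut off -/
def cutFD (l : Lab S) (g : ∀ k, (l k).T.Ω → Matrix ι ι ℝ)
    (hm : ∀ k ω ω', (l k).T.μ ω ≠ 0 → (l k).T.μ ω' ≠ 0 → (l k).V ω ω' → (l k).T.Z ω ω' → g k ω = g k ω') :
    ∀ k, FD (S.F k) ι := fun k =>
  mkFD (l k) (fun ω => cutm (Φ.cp k) (g k ω)) fun ω ω' a b c d => by rw [hm k ω ω' a b c d]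

variable {Φ}

/-- typically nothing is cut off -/
theorem cut_typ (l : Lab S) (g : ∀ k, (l k).T.Ω → Matrix ι ι ℝ)
    (h1 : ∀ᶠ k in UF, ∀ ω, (l k).T.μ ω ≠ 0 → (g k ω).IsSymm ∧ ∀ x, x ⬝ᵥ x ≤ qf (g k ω) x) (K : ℕ → ℝ)
    (hK : S.Sub K) (hT : Sp.Typ (S := l.sp) (fun k (ω : (l k).T.Ω) => Φ.φ k ((l k).p.π ω) (g k ω) ≤ K k)) :
    Sp.Typ (S := l.sp) (fun k (ω : (l k).T.Ω) => Cpd (Φ.cp k) (g k ω)) := by
  refine typ_mono hT ?_
  filter_upwards [h1, Φ.cap, hK.eventually_le one_pos] with k a b c ω hω hφ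
  have hω' := (l k).p.supp ω hω
  obtain ⟨g1, g2⟩ := a ω hω
  refine ⟨g1, g2, fun x => ?_⟩
  refine (b _ hω' _ (pdM_of_one_le g1 g2) x).trans ?_
  apply mul_le_mul_of_nonneg_right _ (dot_self_nonneg x)
  unfold Gau.cp
  rw [add_mul, Real.rpow_add (by norm_num)]
  exact mul_le_mul_of_nonneg_left (hφ.trans (le_of_add_le_of_nonneg_left c (by norm_num))) (by positivity)

theorem cut_ad {A B : Part S} (l : Lab S) (hl : l.DM A B) (g : ∀ k, (l k).T.Ω → Matrix ι ι ℝ)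
    (hm : ∀ k ω ω', (l k).T.μ ω ≠ 0 → (l k).T.μ ω' ≠ 0 → (l k).V ω ω' → (l k).T.Z ω ω' → g k ω = g k ω')
    (h1 : ∀ᶠ k in UF, ∀ ω, (l k).T.μ ω ≠ 0 → (g k ω).IsSymm ∧ ∀ x, x ⬝ᵥ x ≤ qf (g k ω) x) (K : ℕ → ℝ)
    (hK : S.Sub K) (hT : Sp.Typ (S := l.sp) (fun k (ω : (l k).T.Ω) => Φ.φ k ((l k).p.π ω) (g k ω) ≤ K k)) :
    Φ.Ad A B (cutFD Φ l g hm) := by
  refine ad_mk _ hl (fun _ => rfl) (Eventually.of_forall fun k ω _ => cutm_cpd (Φ.one_le_cp k) _) K hK ?_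
  refine typ_mono (typ_and hT (cut_typ l g h1 K hK hT)) ?_
  refine Eventually.of_forall fun k ω _ h => ?_
  show Φ.φ k _ (cutm (Φ.cp k) (g k ω)) ≤ K k
  unfold cutm
  rw [if_pos h.2]
  exact h.1

end cut

/-! ### pull-back of forms -/

section pull

variable {D : ℕ}

/-- the pulled back form -/
def pbf (y : ∀ k, FD (S.F k) (Mon (q + 1) D)) (k : ℕ) (ω : (y k).l.T.Ω) : Matrix (Mon (m + 1) D) (Mon (m + 1) D) ℝ :=
  1 + pbk (M k) ((y k).g ω)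

theorem pbf_meas (y : ∀ k, FD (S.F k) (Mon (q + 1) D)) (k : ℕ) (ω ω' : (y k).l.T.Ω) (h : (y k).l.T.μ ω ≠ 0)
    (h' : (y k).l.T.μ ω' ≠ 0) (hV : (y k).l.V ω ω') (hZ : (y k).l.T.Z ω ω') : pbf M y k ω = pbf M y k ω' := by
  unfold pbf
  rw [((y k).meas ω ω' h h' hV hZ).1]

theorem qf_one (v : Mon (m + 1) D → ℝ) : qf (1 : Matrix (Mon (m + 1) D) (Mon (m + 1) D) ℝ) v = v ⬝ᵥ v := by
  unfold qf
  rw [Matrix.one_mulVec]

theorem pbf_ge {A B : Part S} {Φ : Gau S (Mon (q + 1) D)} {y : ∀ k, FD (S.F k) (Mon (q + 1) D)}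
    (hy : Φ.Ad A B y) : ∀ᶠ k in UF, ∀ ω, (y k).l.T.μ ω ≠ 0 →
      (pbf M y k ω).IsSymm ∧ ∀ x, x ⬝ᵥ x ≤ qf (pbf M y k ω) x := by
  filter_upwards [hy 1 one_pos] with k hk ω hω
  have h1 := (hk.2.2.1 ω hω).1
  unfold pbf
  refine ⟨Matrix.isSymm_one.add (pbk_symm _ h1.1), fun x => ?_⟩
  rw [qf_add, qf_one]
  have h2 := pbk_nonneg (M k) (A := (y k).g ω) (fun v => h1.psd.2 v) x
  show x ⬝ᵥ x ≤ x ⬝ᵥ x + x ⬝ᵥ (pbk (M k) ((y k).g ω) *ᵥ x)
  linarith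

theorem pbf_phi {c : ℝ} {y : ∀ k, FD (S.F k) (Mon (q + 1) D)}
    (hy : (gau (pr s M K hK hM) D).Ad (cA (pr s M K hK hM) c) (cB (pr s M K hK hM)) y) :
    ∃ L : ℕ → ℝ, S.Sub L ∧ Sp.Typ (S := (lb y).sp)
      (fun k (ω : (y k).l.T.Ω) => (gau s D).φ k ((y k).l.p.π ω) (pbf M y k ω) ≤ L k) := by
  obtain ⟨K1, hK1, hT⟩ := ad_sub hy
  obtain ⟨K2, hK2, h2⟩ := (gau s D).one
  have hcst : (0 : ℝ) ≤ nn (m + 1) D := by have := nn_one (m + 1) D; linarith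
  have hCu := Cu_one D
  have hCm := Cm_one (q + 1) D
  refine ⟨fun k => K2 k + (nn (m + 1) D * (Cu D * Cm (q + 1) D * (m * K k + 1) ^ D) ^ 2) * K1 k,
    hK2.add (Sp.Sub.mul ((S.Sub_const hcst).mul (Sub_pow' ((S.Sub_const (by positivity)).mul
      (Sub_pow' (((S.Sub_const (Nat.cast_nonneg m)).mul hK).add (S.Sub_const zero_le_one)) D)) 2)) hK1), ?_⟩
  refine typ_mono hT ?_
  filter_upwards [h2, hM, hK.1, hy 1 one_pos] with k a b b' c ω hω hφ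
  have hω' := (y k).l.p.supp ω hω
  have h3 := (c.2.2.1 ω hω).1
  have h4 : (gau s D).φ k ((y k).l.p.π ω) (pbf M y k ω) =
      (gau s D).φ k ((y k).l.p.π ω) 1 + phi (S.dl 1 k) (pbk (M k) ((y k).g ω)) (ptf s k ((y k).l.p.π ω)) :=
    (gau s D).add k _ _ _
  rw [h4]
  refine add_le_add (a _ hω') ?_
  have h5 := phi_pbk_le (M k) (K k) b' b ((y k).g ω) (pdM_of_one_le h3.1 h3.2.1) (S.dl 1 k) (S.dl_pos 1 k)
    (ptf s k ((y k).l.p.π ω))
  rw [← ptf_pr s M K hK hM] at h5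
  exact h5.trans (mul_le_mul_of_nonneg_left hφ (by positivity))

/-- the pull-back of an admissible form is admissible -/
theorem pbf_ad {c : ℝ} {y : ∀ k, FD (S.F k) (Mon (q + 1) D)}
    (hy : (gau (pr s M K hK hM) D).Ad (cA (pr s M K hK hM) c) (cB (pr s M K hK hM)) y) :
    (gau s D).Ad (cA s c) (cB s) (cutFD (gau s D) (lb y) (pbf M y) (pbf_meas M y)) := by
  obtain ⟨L, hL, hT⟩ := pbf_phi s M K hK hM hy
  exact cut_ad (Φ := gau s D) (lb y) (DMc_pr s M K hK hM (Gau.Ad.dm _ hy)) (pbf M y) (pbf_meas M y)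
    (pbf_ge M hy) L hL hT

theorem pbf_typ {c : ℝ} {y : ∀ k, FD (S.F k) (Mon (q + 1) D)}
    (hy : (gau (pr s M K hK hM) D).Ad (cA (pr s M K hK hM) c) (cB (pr s M K hK hM)) y) :
    Sp.Typ (S := (lb y).sp) (fun k (ω : (y k).l.T.Ω) => Cpd ((gau s D).cp k) (pbf M y k ω)) := by
  obtain ⟨L, hL, hT⟩ := pbf_phi s M K hK hM hy
  exact cut_typ (Φ := gau s D) (lb y) (pbf M y) (pbf_ge M hy) L hL hT

end pull

end

end Pool.Agent.Helper3.PR
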