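import Pool.Agent.Helper3.PR.Vol
import Pool.Agent.Helper3.LF.Eta

/-! Above the thickness of the time coordinate the gradient of the optimal form is in the space variables. -/

set_option autoImplicit false

namespace Pool.Agent.Helper3.PR

open Finset Filter Topology Matrix Pool.Agent.Helper69.RK Pool.Agent.Helper31.EC Pool.Agent.Helper40.EL
open Pool.Agent.Helper31.EC.Sp
open Pool.Agent.Helper95.LF Pool.Agent.Helper3.LF Pool.Agent.Helper48.NS Pool.Agent.Helper89.LX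

noncomputable section

variable {S : Sp} {m D : ℕ}

theorem pl_shift (a x : Fin m → ℝ) (t u : ℝ) :
    pl a x (t + u) = fun k => pl a x t k + u * (Fin.cons 1 x : Fin (m + 1) → ℝ) k := by
  funext k
  refine Fin.cases ?_ (fun i => ?_) k
  · rw [pl_zero, pl_zero, Fin.cons_zero, mul_one]
  · rw [pl_succ, pl_succ, Fin.cons_succ]
    ring

/-- one gradient vector represents the form -/
theorem exists_gv (A : Matrix (Mon (m + 1) D) (Mon (m + 1) D) ℝ) (hA : PdM A) (r : ℝ) (p : Fin (m + 1) → ℝ) :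
    ∃ g : Fin m → ℝ, (∀ v, (g ⬝ᵥ v) ^ 2 ≤ v ⬝ᵥ (Jf r A p *ᵥ v)) ∧
      trJ r A p ≤ nn (m + 1) D * Fintype.card (Mon (m + 1) D) * ∑ i, g i ^ 2 := by
  obtain ⟨C', hC, -⟩ := exists_factor A hA
  obtain ⟨w, hw⟩ := exists_Gv r C' p
  refine ⟨Gv r C' p w, fun v => ?_, ?_⟩
  · rw [hC]
    exact Gv_le r C' p w v
  · rw [hC]
    exact hw

/-- the space gradients of an optimal form -/
theorem trJ_typ (s : Sys S m) {c σ : ℝ} (h0 : 0 ≤ c) (h1 : c < 1) (hσ : Hf s D c σ) (hcσ : c < σ ∨ σ ≤ 0)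
    {x : ∀ k, FD (S.F k) (Mon (m + 1) D)} (hx : (gau s D).Opt (cA s c) (cB s) x) (e : ℝ) (he : 0 < e) :
    Sp.Typ (S := (lb x).sp) (fun k (ω : (x k).l.T.Ω) => 2 ^ (2 * (σ - e) * (S.F k).n) ≤
      1 + trJ (S.dl 1 k) ((x k).g ω) (ptf s k ((x k).l.p.π ω))) := by
  have hPd : ∀ᶠ k in UF, ∀ ω, (x k).l.T.μ ω ≠ 0 → PdM ((x k).g ω) := by
    filter_upwards [hx.1 1 one_pos] with k hk ω hω using (hk.2.2.1 ω hω).1.pdM
  rcases hcσ with hcσ | hσ0
  · -- a small exponent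
    set e1 : ℝ := min (e / 2) ((σ - c) / 2) with he1
    have he1p : 0 < e1 := lt_min (by linarith) (by linarith)
    have he1a : e1 ≤ e / 2 := min_le_left _ _
    have he1b : e1 ≤ (σ - c) / 2 := min_le_right _ _
    have hl : DMc s c (lb x) := Gau.Ad.dm (gau s D) hx.1
    obtain ⟨K1, hK1, hT1⟩ := ad_sub hx.1
    obtain ⟨K2, hK2, hT2⟩ := win_phi (D := D) h0 h1 hl (fun k ω => (x k).g ω) hPd
      (Eventually.of_forall fun k ω ω' a a' b b' => ((x k).meas ω ω' a a' b b').1) 0 le_rfl (fun _ => 1)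
      (S.Sub_const zero_le_one)
    obtain ⟨Kx, hKx, hxb⟩ := s.x.bd
    have hT3 : Sp.Typ (S := (lb x).sp) (fun k (ω : (x k).l.T.Ω) => 2 ^ (2 * (σ - e1) * (S.F k).n) ≤
      sga s D k ((x k).l.p.π ω) ((x k).g ω)) := hσ.opt hx e1 he1p
    have hnn := nn_one (m + 1) D
    have hCu := Cu_one D
    -- constants
    set L1 : ℕ → ℝ := fun k => 2 * (nn (m + 1) D * Fintype.card (Mon (m + 1) D)) * (Cu D ^ 2 * (K2 k * K1 k)) with hL1
    set L2 : ℕ → ℝ := fun k => 2 * (m * Kx k ^ 2) + 1 with hL2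
    have hL1s : S.Sub L1 := (S.Sub_const (by positivity)).mul ((S.Sub_const (by positivity)).mul (hK2.mul hK1))
    have hL2s : S.Sub L2 := ((S.Sub_const (by norm_num)).mul ((S.Sub_const (Nat.cast_nonneg m)).mul
      (Sub_pow' hKx 2))).add (S.Sub_const zero_le_one)
    refine typ_mono (typ_and (typ_and hT1 hT2) hT3) ?_
    filter_upwards [hPd, hxb, hK1.1, hK2.1, hKx.1, hL1s.eventually_le (show 0 < e1 / 2 by linarith),
      hL2s.eventually_le (show 0 < e1 / 2 by linarith), eventually_le_two_pow S 2] with k b1 b2 b3 b4 b5 b6 b7 _b8 ω hω hE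
    obtain ⟨⟨f1, f2'⟩, f3⟩ := hE
    have f2 : ∀ r, |r - s.t.v k ((x k).l.p.π ω) 0| ≤ 1 * S.dl (c - 0) k →
      phi (S.dl 1 k) ((x k).g ω) (pl (s.a.v k ((x k).l.p.π ω)) (s.x.v k ((x k).l.p.π ω)) r) ≤
        K2 k * 2 ^ ((2 * D : ℕ) * 0 * (S.F k).n) * sph s D k ((x k).l.p.π ω) ((x k).g ω) := f2'
    have hn := (S.F k).pos
    have hA := b1 ω hω
    have hR := S.dl_pos c k
    have hg := gam_le_trJ ((x k).g ω) hA (S.dl 1 k) (S.dl c k) (K2 k * K1 k) (Kx k) hR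
      (ptf s k ((x k).l.p.π ω)) (s.x.v k ((x k).l.p.π ω)) (fun i => b2 _ ((x k).l.p.supp ω hω) i) (by
        intro u hu
        have e1 := f2 (s.t.v k ((x k).l.p.π ω) 0 + u) (by
          have e2 : s.t.v k ((x k).l.p.π ω) 0 + u - s.t.v k ((x k).l.p.π ω) 0 = u := by ring
          rw [one_mul, sub_zero, e2]
          exact hu)
        rw [pl_shift, mul_zero, zero_mul, Real.rpow_zero, mul_one] at e1
        exact e1.trans (mul_le_mul_of_nonneg_left f1 b4))
    set T := trJ (S.dl 1 k) ((x k).g ω) (ptf s k ((x k).l.p.π ω)) with hTd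
    have hT0 : 0 ≤ T := trJ_nonneg _ hA.nonneg _
    have hinv : (S.dl c k ^ 2)⁻¹ = 2 ^ (2 * c * (S.F k).n) := by
      unfold Sp.dl
      rw [← Real.rpow_natCast, ← Real.rpow_mul (by norm_num), ← Real.rpow_neg (by norm_num)]
      congr 1
      push_cast
      ring
    have g1 : 2 * (nn (m + 1) D * Fintype.card (Mon (m + 1) D)) * (Cu D ^ 2 * (K2 k * K1 k) / S.dl c k ^ 2) =
        L1 k * 2 ^ (2 * c * (S.F k).n) := by
      rw [div_eq_mul_inv, hinv, hL1]
      ring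
    rw [g1] at hg
    have g2 : (2 : ℝ) ^ (2 * (σ - e1) * (S.F k).n) ≤ L1 k * 2 ^ (2 * c * (S.F k).n) + L2 k * T := f3.trans hg
    -- the first term is at most a half
    have hpw : ∀ a b : ℝ, (2 : ℝ) ^ (a * (S.F k).n) * 2 ^ (b * (S.F k).n) = 2 ^ ((a + b) * (S.F k).n) := by
      intro a b
      rw [← Real.rpow_add (by norm_num)]
      congr 1; ring
    have hle : ∀ a b : ℝ, a ≤ b → (2 : ℝ) ^ (a * (S.F k).n) ≤ 2 ^ (b * (S.F k).n) := fun a b hab =>
      Real.rpow_le_rpow_of_exponent_le (by norm_num) (mul_le_mul_of_nonneg_right hab hn.le)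
    have hp0 : ∀ a : ℝ, (0 : ℝ) < 2 ^ (a * (S.F k).n) := fun a => Real.rpow_pos_of_pos (by norm_num) _
    have hL10 : 0 ≤ L1 k := by
      have : 0 ≤ K2 k * K1 k := mul_nonneg b4 b3
      rw [hL1]
      positivity
    have hL21 : 1 ≤ L2 k := by
      have : 0 ≤ (m : ℝ) * Kx k ^ 2 := by positivity
      rw [hL2]
      show 1 ≤ 2 * (m * Kx k ^ 2) + 1
      linarith
    have g3 : L1 k * 2 ^ (2 * c * (S.F k).n) ≤ 2 ^ ((2 * (σ - e1) - e1) * (S.F k).n) := by
      have h4 : L1 k ≤ 2 ^ (e1 / 2 * (S.F k).n) := by linarith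
      refine (mul_le_mul_of_nonneg_right h4 (hp0 _).le).trans ?_
      rw [hpw]
      apply hle
      linarith
    rcases le_total (2 * (2 : ℝ) ^ ((2 * (σ - e1) - e1) * (S.F k).n)) (2 ^ (2 * (σ - e1) * (S.F k).n)) with h2 | h2
    · -- half of the size is in the space variables
      have g4 : (2 : ℝ) ^ (2 * (σ - e1) * (S.F k).n) ≤ 2 * (L2 k * T) := by linarith
      have g5 : L2 k * T ≤ 2 ^ (e1 / 2 * (S.F k).n) * T := mul_le_mul_of_nonneg_right (by linarith) hT0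
      have g6 : (2 : ℝ) ≤ 2 ^ (e1 / 2 * (S.F k).n) := by linarith
      have g7 : (2 : ℝ) ^ (2 * (σ - e1) * (S.F k).n) ≤ 2 ^ (e1 * (S.F k).n) * T := by
        calc (2 : ℝ) ^ (2 * (σ - e1) * (S.F k).n) ≤ 2 * (2 ^ (e1 / 2 * (S.F k).n) * T) := by linarith
          _ ≤ 2 ^ (e1 / 2 * (S.F k).n) * (2 ^ (e1 / 2 * (S.F k).n) * T) :=
              mul_le_mul_of_nonneg_right g6 (by have := hp0 (e1 / 2); positivity)
          _ = _ := by
              rw [← mul_assoc, hpw]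
              congr 2
              ring
      have g8 : (2 : ℝ) ^ (2 * (σ - e1) * (S.F k).n) = 2 ^ (e1 * (S.F k).n) * 2 ^ ((2 * (σ - e1) - e1) * (S.F k).n) := by
        rw [hpw]
        congr 1; ring
      rw [g8] at g7
      have g9 : (2 : ℝ) ^ ((2 * (σ - e1) - e1) * (S.F k).n) ≤ T := le_of_mul_le_mul_left g7 (hp0 _)
      have g10 : (2 : ℝ) ^ (2 * (σ - e) * (S.F k).n) ≤ 2 ^ ((2 * (σ - e1) - e1) * (S.F k).n) := hle _ _ (by linarith)
      linarith
    · -- impossible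
      exfalso
      have g4 : (2 : ℝ) ^ (2 * (σ - e1) * (S.F k).n) = 2 ^ (e1 * (S.F k).n) * 2 ^ ((2 * (σ - e1) - e1) * (S.F k).n) := by
        rw [hpw]
        congr 1; ring
      rw [g4] at h2
      have g5 : (2 : ℝ) ^ (e1 * (S.F k).n) ≤ 2 := le_of_mul_le_mul_right h2 (hp0 _)
      have g6 : (2 : ℝ) + L1 k ≤ 2 ^ (e1 / 2 * (S.F k).n) := by linarith
      have g7 : (2 : ℝ) ^ (e1 / 2 * (S.F k).n) < 2 ^ (e1 * (S.F k).n) :=
        Real.rpow_lt_rpow_of_exponent_lt (by norm_num) (mul_lt_mul_of_pos_right (by linarith) hn)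
      linarith
  · refine typ_mono (Typ_true (S := (lb x).sp)) ?_
    filter_upwards [hPd] with k b1 ω hω _
    have h2 := trJ_nonneg (S.dl 1 k) (b1 ω hω).nonneg (ptf s k ((x k).l.p.π ω))
    have h3 : (2 : ℝ) ^ (2 * (σ - e) * (S.F k).n) ≤ 1 := by
      apply Real.rpow_le_one_of_one_le_of_nonpos (by norm_num)
      have := (S.F k).pos
      nlinarith
    linarith

end

end Pool.Agent.Helper3.PR
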