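import Pool.Agent.Helper3.PR.Sub

/-! A determinant inequality: one more independent direction. -/

set_option autoImplicit false

namespace Pool.Agent.Helper3.PR

open Matrix Pool.Agent.Helper95.LF

variable {q : ℕ}

/-- block matrix -/
def D0 (M : Matrix (Fin q) (Fin q) ℝ) : Matrix (Fin (q + 1)) (Fin (q + 1)) ℝ :=
  Matrix.of (Fin.cons (Fin.cons 1 fun _ => 0) fun i => Fin.cons 0 fun j => M i j)

theorem D0_det (M : Matrix (Fin q) (Fin q) ℝ) : (D0 M).det = M.det := by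
  rw [Matrix.det_succ_row_zero, Fin.sum_univ_succ]
  have h0 : ∀ j : Fin q, D0 M 0 j.succ = 0 := fun j => rfl
  have h1 : D0 M 0 0 = 1 := rfl
  have h2 : (D0 M).submatrix Fin.succ (Fin.succAbove 0) = M := by
    ext i j
    rfl
  rw [h1, h2, Finset.sum_eq_zero fun j _ => by rw [h0 j, mul_zero, zero_mul]]
  simp

theorem D0_qf (M : Matrix (Fin q) (Fin q) ℝ) (τ : ℝ) (w : Fin q → ℝ) :
    (Fin.cons τ w : Fin (q + 1) → ℝ) ⬝ᵥ (D0 M *ᵥ Fin.cons τ w) = τ ^ 2 + w ⬝ᵥ (M *ᵥ w) := by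
  unfold Matrix.mulVec dotProduct
  rw [Fin.sum_univ_succ]
  simp only [Fin.cons_zero, Fin.cons_succ, Fin.sum_univ_succ]
  have h0 : ∀ j : Fin q, D0 M 0 j.succ = 0 := fun j => rfl
  have h1 : D0 M 0 0 = 1 := rfl
  have h2 : ∀ i : Fin q, D0 M i.succ 0 = 0 := fun j => rfl
  have h3 : ∀ i j : Fin q, D0 M i.succ j.succ = M i j := fun i j => rfl
  simp only [h0, h1, h2, h3, zero_mul, Finset.sum_const_zero, add_zero, zero_add, one_mul]
  rw [pow_two]

/-- shear -/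
def SS (γ : ℝ) (ρ : Fin q → ℝ) : Matrix (Fin (q + 1)) (Fin (q + 1)) ℝ :=
  Matrix.of (Fin.cons (Fin.cons γ ρ) fun i => Fin.cons 0 fun j => if i = j then 1 else 0)

theorem SS_det (γ : ℝ) (ρ : Fin q → ℝ) : (SS γ ρ).det = γ := by
  rw [Matrix.det_succ_column_zero, Fin.sum_univ_succ]
  have h0 : ∀ j : Fin q, SS γ ρ j.succ 0 = 0 := fun j => rfl
  have h1 : SS γ ρ 0 0 = γ := rfl
  have h2 : (SS γ ρ).submatrix (Fin.succAbove 0) Fin.succ = 1 := by
    ext i j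
    rw [Matrix.one_apply]
    rfl
  rw [h1, h2, Finset.sum_eq_zero fun j _ => by rw [h0 j, mul_zero, zero_mul]]
  simp

theorem SS_mulVec (γ : ℝ) (ρ : Fin q → ℝ) (τ : ℝ) (w : Fin q → ℝ) :
    SS γ ρ *ᵥ Fin.cons τ w = Fin.cons (γ * τ + ρ ⬝ᵥ w) w := by
  funext i
  unfold Matrix.mulVec dotProduct
  rw [Fin.sum_univ_succ]
  simp only [Fin.cons_zero, Fin.cons_succ]
  refine Fin.cases ?_ (fun i => ?_) i
  · rfl
  · have h2 : SS γ ρ i.succ 0 = 0 := rfl
    have h3 : ∀ j : Fin q, SS γ ρ i.succ j.succ = if i = j then 1 else 0 := fun j => rfl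
    simp only [h2, h3, zero_mul, zero_add, ite_mul, one_mul, Finset.sum_ite_eq, Finset.mem_univ, if_true,
      Fin.cons_succ]

/-- the change of coordinates with columns `e`, `R` -/
def TT (e : Fin (q + 1) → ℝ) (R : Matrix (Fin (q + 1)) (Fin q) ℝ) : Matrix (Fin (q + 1)) (Fin (q + 1)) ℝ :=
  Matrix.of fun i => Fin.cons (e i) (R i)

theorem TT_mulVec (e : Fin (q + 1) → ℝ) (R : Matrix (Fin (q + 1)) (Fin q) ℝ) (τ : ℝ) (w : Fin q → ℝ) :
    TT e R *ᵥ Fin.cons τ w = τ • e + R *ᵥ w := by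
  funext i
  unfold Matrix.mulVec dotProduct
  rw [Fin.sum_univ_succ]
  simp only [Fin.cons_zero, Fin.cons_succ, Pi.add_apply, Pi.smul_apply, smul_eq_mul]
  have h0 : TT e R i 0 = e i := rfl
  have h1 : ∀ j : Fin q, TT e R i j.succ = R i j := fun j => rfl
  rw [h0]
  simp only [h1]
  rw [mul_comm]

theorem dv_conj' {κ κ' : Type} [Fintype κ] [Fintype κ'] (C : Matrix κ' κ ℝ) (T : Matrix κ' κ' ℝ) (x : κ → ℝ) :
    x ⬝ᵥ ((C.transpose * T * C) *ᵥ x) = (C *ᵥ x) ⬝ᵥ (T *ᵥ (C *ᵥ x)) := by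
  rw [← Matrix.mulVec_mulVec, ← Matrix.mulVec_mulVec, Matrix.dotProduct_mulVec, Matrix.vecMul_transpose]

/-- one more direction -/
theorem det_schur (G : Matrix (Fin (q + 1)) (Fin (q + 1)) ℝ) (G' : Matrix (Fin q) (Fin q) ℝ)
    (L : Matrix (Fin q) (Fin (q + 1)) ℝ) (R : Matrix (Fin (q + 1)) (Fin q) ℝ) (e g : Fin (q + 1) → ℝ)
    (c K : ℝ) (hc : 0 < c) (hLR : L * R = 1) (hLe : L *ᵥ e = 0) (hG : G.IsSymm) (hGp : 0 ≤ G.det) (hG' : PdM G')
    (he : ∀ i, |e i| ≤ K) (hR : ∀ i j, |R i j| ≤ K)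
    (h : ∀ v, c * ((L *ᵥ v) ⬝ᵥ (G' *ᵥ (L *ᵥ v)) + (g ⬝ᵥ v) ^ 2) ≤ v ⬝ᵥ (G *ᵥ v)) :
    (g ⬝ᵥ e) ^ 2 * G'.det ≤ (((q + 1).factorial : ℝ) * K ^ (q + 1)) ^ 2 * (c ^ (q + 1))⁻¹ * G.det := by
  have hK : 0 ≤ K := (abs_nonneg _).trans (he 0)
  have hcq : 0 < c ^ (q + 1) := pow_pos hc _
  by_cases h0 : g ⬝ᵥ e = 0
  · rw [h0]
    have : 0 ≤ (((q + 1).factorial : ℝ) * K ^ (q + 1)) ^ 2 * (c ^ (q + 1))⁻¹ * G.det := by positivity
    simpa using this
  set ρ : Fin q → ℝ := R.transpose *ᵥ g with hρ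
  set M0 : Matrix (Fin (q + 1)) (Fin (q + 1)) ℝ := (SS (g ⬝ᵥ e) ρ).transpose * D0 G' * SS (g ⬝ᵥ e) ρ with hM0
  have hM0s : M0.IsSymm := by
    have hD : (D0 G').IsSymm := by
      ext i j
      rw [Matrix.transpose_apply]
      refine Fin.cases ?_ (fun i => ?_) i
      · refine Fin.cases rfl (fun j => rfl) j
      · refine Fin.cases rfl (fun j => ?_) j
        show G' j i = G' i j
        exact hG'.1.apply i j
    unfold Matrix.IsSymm
    rw [hM0, Matrix.transpose_mul, Matrix.transpose_mul, Matrix.transpose_transpose, hD.eq, Matrix.mul_assoc]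
  have hqf : ∀ (τ : ℝ) (w : Fin q → ℝ), (Fin.cons τ w : Fin (q + 1) → ℝ) ⬝ᵥ (M0 *ᵥ Fin.cons τ w) =
      (g ⬝ᵥ (TT e R *ᵥ Fin.cons τ w)) ^ 2 + w ⬝ᵥ (G' *ᵥ w) := by
    intro τ w
    rw [hM0, dv_conj', SS_mulVec, D0_qf, TT_mulVec]
    congr 2
    rw [dotProduct_add, dotProduct_smul, smul_eq_mul, hρ, Matrix.dotProduct_mulVec g R w,
      ← Matrix.mulVec_transpose]
    ring
  have hM0d : M0.det = (g ⬝ᵥ e) ^ 2 * G'.det := by
    rw [hM0, Matrix.det_mul, Matrix.det_mul, Matrix.det_transpose, SS_det, D0_det]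
    ring
  have hM0p : PdM M0 := by
    refine ⟨hM0s, fun x hx => ?_⟩
    rw [← Fin.cons_self_tail x, hqf]
    by_cases hw : Fin.tail x = 0
    · have hx0 : x 0 ≠ 0 := by
        intro h1
        apply hx
        rw [← Fin.cons_self_tail x, hw, h1]
        funext i
        exact Fin.cases rfl (fun _ => rfl) i
      rw [hw, TT_mulVec, Matrix.mulVec_zero, add_zero, Matrix.mulVec_zero, dotProduct_zero, add_zero,
        dotProduct_smul, smul_eq_mul]
      have := mul_ne_zero hx0 h0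
      positivity
    · have := hG'.2 _ hw
      positivity
  have hT : ∀ u : Fin (q + 1) → ℝ, u ⬝ᵥ ((c • M0) *ᵥ u) ≤
      u ⬝ᵥ (((TT e R).transpose * G * TT e R) *ᵥ u) := by
    intro u
    rw [dv_smul, dv_conj' (TT e R) G u]
    have h1 := h (TT e R *ᵥ u)
    have h2 : L *ᵥ (TT e R *ᵥ u) = Fin.tail u := by
      conv_lhs => rw [← Fin.cons_self_tail u]
      rw [TT_mulVec, Matrix.mulVec_add, Matrix.mulVec_smul, hLe, smul_zero, zero_add, Matrix.mulVec_mulVec,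
        hLR, Matrix.one_mulVec]
    rw [h2] at h1
    have h3 := hqf (u 0) (Fin.tail u)
    rw [Fin.cons_self_tail u] at h3
    rw [h3]
    linarith
  have hs : ((TT e R).transpose * G * TT e R).IsSymm := by
    unfold Matrix.IsSymm
    rw [Matrix.transpose_mul, Matrix.transpose_mul, Matrix.transpose_transpose, hG.eq, Matrix.mul_assoc]
  have h4 := det_mono (hM0p.smul hc) hs hT
  rw [Matrix.det_smul, Fintype.card_fin, hM0d, Matrix.det_mul, Matrix.det_mul, Matrix.det_transpose] at h4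
  have h5 : |(TT e R).det| ≤ ((q + 1).factorial : ℝ) * K ^ (q + 1) := by
    have h6 := Matrix.det_le (A := TT e R) (abv := (AbsoluteValue.abs : AbsoluteValue ℝ ℝ)) (x := K) (by
      intro i j
      refine Fin.cases ?_ (fun j => ?_) j
      · exact he i
      · exact hR i j)
    rw [Fintype.card_fin, nsmul_eq_mul] at h6
    exact h6
  have h7 : (TT e R).det ^ 2 ≤ (((q + 1).factorial : ℝ) * K ^ (q + 1)) ^ 2 := by
    rw [← sq_abs]
    exact pow_le_pow_left₀ (abs_nonneg _) h5 2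
  have h8 : c ^ (q + 1) * ((g ⬝ᵥ e) ^ 2 * G'.det) ≤
      (((q + 1).factorial : ℝ) * K ^ (q + 1)) ^ 2 * G.det := by
    refine h4.trans ?_
    calc (TT e R).det * G.det * (TT e R).det = (TT e R).det ^ 2 * G.det := by ring
      _ ≤ _ := mul_le_mul_of_nonneg_right h7 hGp
  rw [mul_assoc, mul_comm (c ^ (q + 1))⁻¹, ← mul_assoc, ← div_eq_mul_inv, le_div_iff₀ hcq]
  linarith

end Pool.Agent.Helper3.PR
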