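import Mathlib

/-! Generic directions: a vector valued function is rarely almost orthogonal to a well chosen direction of the
moment curve. -/

set_option autoImplicit false

namespace Pool.Agent.Helper3.PR

open Finset

/-- the constant -/
noncomputable def cGen (q N : ℕ) : ℝ := ((q + 1 : ℕ) : ℝ) * (((q + 1).factorial : ℝ) * ((N : ℝ) ^ q) ^ (q + 1))

/-- scalar product with the direction number `τ` -/
def mcv (q : ℕ) (τ : ℕ) (v : Fin (q + 1) → ℝ) : ℝ := ∑ i : Fin (q + 1), (τ : ℝ) ^ (i : ℕ) * v i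

theorem vdm_bound (q N : ℕ) (hN : 1 ≤ N) (f : Fin (q + 1) → ℕ) (hf : Function.Injective f) (hfN : ∀ j, f j ≤ N)
    (v : Fin (q + 1) → ℝ) (M : ℝ) (hM : ∀ j, |mcv q (f j) v| ≤ M) (i : Fin (q + 1)) : |v i| ≤ cGen q N * M := by
  set V : Matrix (Fin (q + 1)) (Fin (q + 1)) ℝ := Matrix.vandermonde fun j => (f j : ℝ) with hV
  have hN1 : (1 : ℝ) ≤ (N : ℝ) := by exact_mod_cast hN
  have hNq : (1 : ℝ) ≤ (N : ℝ) ^ q := one_le_pow₀ hN1
  have hdet : 1 ≤ |V.det| := by
    rw [hV, Matrix.det_vandermonde, Finset.abs_prod]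
    have h1 : ∀ a ∈ (univ : Finset (Fin (q + 1))), (1 : ℝ) ≤ |∏ j ∈ Ioi a, ((f j : ℝ) - (f a : ℝ))| := by
      intro a _
      rw [Finset.abs_prod]
      have h2 : ∀ b ∈ Ioi a, (1 : ℝ) ≤ |(f b : ℝ) - (f a : ℝ)| := by
        intro b hb
        have h3 : (f b : ℤ) - (f a : ℤ) ≠ 0 := by
          intro h4
          have h5 : f b = f a := by omega
          exact absurd (hf h5) (Finset.mem_Ioi.mp hb).ne'
        have h4 : (1 : ℤ) ≤ |(f b : ℤ) - (f a : ℤ)| := Int.one_le_abs h3
        have h5 : ((1 : ℤ) : ℝ) ≤ ((|(f b : ℤ) - (f a : ℤ)| : ℤ) : ℝ) := by exact_mod_cast h4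
        push_cast at h5
        exact h5
      calc (1 : ℝ) = ∏ _b ∈ Ioi a, (1 : ℝ) := by rw [Finset.prod_const_one]
        _ ≤ _ := Finset.prod_le_prod (fun _ _ => zero_le_one) h2
    calc (1 : ℝ) = ∏ _a ∈ (univ : Finset (Fin (q + 1))), (1 : ℝ) := by rw [Finset.prod_const_one]
      _ ≤ _ := Finset.prod_le_prod (fun _ _ => zero_le_one) h1
  have hent : ∀ a b, |V a b| ≤ (N : ℝ) ^ q := by
    intro a b
    rw [hV, Matrix.vandermonde_apply, abs_pow, Nat.abs_cast]
    calc (f a : ℝ) ^ (b : ℕ) ≤ (N : ℝ) ^ (b : ℕ) :=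
          pow_le_pow_left₀ (Nat.cast_nonneg _) (by exact_mod_cast hfN a) _
      _ ≤ (N : ℝ) ^ q := pow_le_pow_right₀ hN1 (Nat.le_of_lt_succ b.2)
  have hadj : ∀ a b, |V.adjugate a b| ≤ ((q + 1).factorial : ℝ) * ((N : ℝ) ^ q) ^ (q + 1) := by
    intro a b
    rw [Matrix.adjugate_apply]
    have h6 := Matrix.det_le (A := V.updateRow b (Pi.single a 1)) (abv := (AbsoluteValue.abs : AbsoluteValue ℝ ℝ))
      (x := (N : ℝ) ^ q) (by
        intro i j
        show |V.updateRow b (Pi.single a 1) i j| ≤ _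
        rw [Matrix.updateRow_apply]
        split_ifs with h
        · rw [Pi.single_apply]
          split_ifs
          · rw [abs_one]; exact hNq
          · rw [abs_zero]; linarith
        · exact hent i j)
    rw [Fintype.card_fin, nsmul_eq_mul] at h6
    exact h6
  have hMv : ∀ j, (V.mulVec v) j = mcv q (f j) v := by
    intro j
    have e1 : (V.mulVec v) j = ∑ i, V j i * v i := rfl
    rw [e1]
    unfold mcv
    refine Finset.sum_congr rfl fun i _ => ?_
    rw [hV, Matrix.vandermonde_apply]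
  have h7 : V.adjugate.mulVec (V.mulVec v) = V.det • v := by
    rw [Matrix.mulVec_mulVec, Matrix.adjugate_mul, Matrix.smul_mulVec, Matrix.one_mulVec]
  have h8 : V.det * v i = ∑ j, V.adjugate i j * mcv q (f j) v := by
    have h9 := congrFun h7 i
    rw [Pi.smul_apply, smul_eq_mul] at h9
    rw [← h9]
    unfold Matrix.mulVec dotProduct
    exact Finset.sum_congr rfl fun j _ => by rw [← hMv j]; rfl
  have hM0 : 0 ≤ M := (abs_nonneg _).trans (hM i)
  have h10 : |V.det * v i| ≤ cGen q N * M := by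
    rw [h8]
    refine (Finset.abs_sum_le_sum_abs _ _).trans ?_
    have h11 : ∀ j ∈ (univ : Finset (Fin (q + 1))), |V.adjugate i j * mcv q (f j) v| ≤
        ((q + 1).factorial : ℝ) * ((N : ℝ) ^ q) ^ (q + 1) * M := by
      intro j _
      rw [abs_mul]
      exact mul_le_mul (hadj i j) (hM j) (abs_nonneg _) (by positivity)
    refine (Finset.sum_le_card_nsmul _ _ _ h11).trans (le_of_eq ?_)
    rw [nsmul_eq_mul, Finset.card_univ, Fintype.card_fin]
    unfold cGen
    ring
  rw [abs_mul] at h10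
  have h12 := abs_nonneg (v i)
  nlinarith

theorem gen_fin {Ω : Type} [Fintype Ω] (μ : Ω → ℝ) (h0 : ∀ ω, 0 ≤ μ ω) (hm : ∑ ω, μ ω ≤ 1) (q N : ℕ) (hN : 1 ≤ N)
    (v : Ω → Fin (q + 1) → ℝ) : ∃ τ : ℕ, τ < N ∧
      ∑ ω, (open Classical in if (∀ i, |v ω i| ≤ cGen q N * |mcv q τ (v ω)|) then 0 else μ ω) ≤ (q : ℝ) / N := by
  classical
  have hNp : (0 : ℝ) < N := by exact_mod_cast hN
  have hc0 : 0 ≤ cGen q N := by unfold cGen; positivity
  by_contra hcon
  push Not at hcon
  have h1 : (∑ τ ∈ range N, ∑ ω, (if (∀ i, |v ω i| ≤ cGen q N * |mcv q τ (v ω)|) then 0 else μ ω)) ≤ q := by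
    rw [Finset.sum_comm]
    have h2 : ∀ ω ∈ (univ : Finset Ω), (∑ τ ∈ range N,
        (if (∀ i, |v ω i| ≤ cGen q N * |mcv q τ (v ω)|) then 0 else μ ω)) ≤ q * μ ω := by
      intro ω _
      set B : Finset ℕ := (range N).filter fun τ => ¬ ∀ i, |v ω i| ≤ cGen q N * |mcv q τ (v ω)| with hB
      have h3 : (∑ τ ∈ range N, (if (∀ i, |v ω i| ≤ cGen q N * |mcv q τ (v ω)|) then 0 else μ ω)) =
          B.card * μ ω := by
        rw [hB, ← nsmul_eq_mul, ← Finset.sum_const, Finset.sum_filter]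
        refine Finset.sum_congr rfl fun τ _ => ?_
        by_cases h : ∀ i, |v ω i| ≤ cGen q N * |mcv q τ (v ω)|
        · rw [if_pos h, if_neg (not_not.mpr h)]
        · rw [if_neg h, if_pos h]
      rw [h3]
      have h4 : B.card ≤ q := by
        by_contra h5
        push Not at h5
        obtain ⟨B', hB', hcard⟩ := Finset.exists_subset_card_eq (s := B) (n := q + 1) h5
        set f : Fin (q + 1) → ℕ := fun j => B'.orderEmbOfFin hcard j with hf
        have hfB : ∀ j, f j ∈ B := fun j => hB' (Finset.orderEmbOfFin_mem B' hcard j)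
        have hinj : Function.Injective f := (B'.orderEmbOfFin hcard).injective
        obtain ⟨j0, hj0⟩ : ∃ j0 : Fin (q + 1), ∀ j, |mcv q (f j) (v ω)| ≤ |mcv q (f j0) (v ω)| := by
          obtain ⟨j0, -, h⟩ := Finset.exists_max_image (univ : Finset (Fin (q + 1)))
            (fun j => |mcv q (f j) (v ω)|) ⟨0, Finset.mem_univ _⟩
          exact ⟨j0, fun j => h j (Finset.mem_univ _)⟩
        have h6 := vdm_bound q N hN f hinj (fun j => by
          have := hfB j
          rw [hB, Finset.mem_filter, Finset.mem_range] at this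
          exact this.1.le) (v ω) _ hj0
        have h7 := hfB j0
        rw [hB, Finset.mem_filter] at h7
        exact h7.2 h6
      exact mul_le_mul_of_nonneg_right (by exact_mod_cast h4) (h0 ω)
    refine (Finset.sum_le_sum h2).trans ?_
    rw [← Finset.mul_sum]
    have : (0 : ℝ) ≤ q := Nat.cast_nonneg _
    nlinarith
  have h2 : ∀ τ ∈ range N, (q : ℝ) / N <
      ∑ ω, (if (∀ i, |v ω i| ≤ cGen q N * |mcv q τ (v ω)|) then 0 else μ ω) := by
    intro τ hτ
    exact hcon τ (Finset.mem_range.mp hτ)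
  have h3 := Finset.sum_lt_sum_of_nonempty (Finset.nonempty_range_iff.mpr (by omega)) h2
  rw [Finset.sum_const, Finset.card_range, nsmul_eq_mul, mul_div_assoc', mul_div_cancel_left₀ _ hNp.ne'] at h3
  linarith

end Pool.Agent.Helper3.PR
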