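import Pool.Agent.Helper3.PR.Det
import Pool.Agent.Helper3.PR.Gen

/-! Gradients in the space variables: a form which is bounded along a window of a line has its gradient mainly in
the space variables; one generic direction sees the gradient. -/

set_option autoImplicit false

namespace Pool.Agent.Helper3.PR

open MvPolynomial Matrix Pool.Agent.Helper95.LF Pool.Agent.Helper3.LF Pool.Agent.Helper48.NS

noncomputable section

variable {m D : ℕ}

/-- size of the space gradients of a form -/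
def trJ (r : ℝ) (A : Matrix (Mon (m + 1) D) (Mon (m + 1) D) ℝ) (p : Fin (m + 1) → ℝ) : ℝ :=
  ∑ i : Fin m, ∑ j : Fin (m + 1) → Fin (D + 1), dd i.succ (nodp D p r j) ⬝ᵥ (A *ᵥ dd i.succ (nodp D p r j))

theorem gam_split (r : ℝ) (A : Matrix (Mon (m + 1) D) (Mon (m + 1) D) ℝ) (p : Fin (m + 1) → ℝ) :
    gam r A p = (∑ j : Fin (m + 1) → Fin (D + 1), dd 0 (nodp D p r j) ⬝ᵥ (A *ᵥ dd 0 (nodp D p r j))) +
      trJ r A p := by
  unfold gam trJ
  rw [Fin.sum_univ_succ]

theorem trJ_rows (r : ℝ) (C' : Matrix (Mon (m + 1) D) (Mon (m + 1) D) ℝ) (p : Fin (m + 1) → ℝ) :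
    trJ r (C'.transpose * C') p = ∑ j : Fin (m + 1) → Fin (D + 1), ∑ k, ∑ i : Fin m,
      (eval (nodp D p r j) (pderiv i.succ (pol (C' k)))) ^ 2 := by
  unfold trJ
  rw [Finset.sum_comm]
  refine Finset.sum_congr rfl fun j _ => ?_
  rw [Finset.sum_comm]
  refine Finset.sum_congr rfl fun i _ => ?_
  rw [qf_rows]
  exact Finset.sum_congr rfl fun k _ => by rw [eval_pderiv_pol]

/-- derivative in the direction of the line -/
theorem der_dir (f : MvPolynomial (Fin (m + 1)) ℝ) (hf : f.totalDegree ≤ D) (y X : Fin (m + 1) → ℝ) (R M : ℝ)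
    (hR : 0 < R) (hM : ∀ u, |u| ≤ R → |eval (fun k => y k + u * X k) f| ≤ M) :
    |∑ k, X k * eval y (pderiv k f)| ≤ Cu D * M / R := by
  have h1 := uni_affine D (lin y X f) ((natDegree_lin _ _ f).trans hf) 1 0 R 1 0 M hR le_rfl
    (by rw [sub_zero, abs_zero, one_mul]; exact hR.le) (by
      intro j hj
      rw [eval_lin]
      apply hM
      rw [zero_add, abs_mul, abs_of_pos hR, abs_of_nonneg (nod_nonneg D j)]
      have := nod_le D j hj
      nlinarith)
  rw [one_pow, mul_one, pow_one] at h1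
  have h2 : Polynomial.derivative^[1] (lin y X f) = Polynomial.derivative (lin y X f) := rfl
  rw [h2, deriv_lin, Polynomial.eval_finsetSum] at h1
  have h3 : (∑ k, (Polynomial.C (X k) * lin y X (pderiv k f)).eval 0) = ∑ k, X k * eval y (pderiv k f) := by
    refine Finset.sum_congr rfl fun k _ => ?_
    rw [Polynomial.eval_mul, Polynomial.eval_C, eval_lin]
    have e1 : (fun k => y k + 0 * X k) = y := by
      funext i
      rw [zero_mul, add_zero]
    rw [e1]
  rw [h3] at h1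
  rw [le_div_iff₀ hR]
  linarith

theorem nodp_shift (p X : Fin (m + 1) → ℝ) (r u : ℝ) (j : Fin (m + 1) → Fin (D + 1)) :
    nodp D (fun k => p k + u * X k) r j = fun k => nodp D p r j k + u * X k := by
  funext k
  unfold nodp
  ring

/-- the gradient is mainly in the space variables -/
theorem gam_le_trJ (A : Matrix (Mon (m + 1) D) (Mon (m + 1) D) ℝ) (hA : PdM A) (r R M2 K : ℝ) (hR : 0 < R)
    (p : Fin (m + 1) → ℝ) (x : Fin m → ℝ) (hx : ∀ i, |x i| ≤ K)
    (h : ∀ u, |u| ≤ R → phi r A (fun k => p k + u * (Fin.cons 1 x : Fin (m + 1) → ℝ) k) ≤ M2) :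
    gam r A p ≤ 2 * (nn (m + 1) D * Fintype.card (Mon (m + 1) D)) * (Cu D ^ 2 * M2 / R ^ 2) +
      (2 * (m * K ^ 2) + 1) * trJ r A p := by
  obtain ⟨C', hC, -⟩ := exists_factor A hA
  set X : Fin (m + 1) → ℝ := Fin.cons 1 x with hX
  have hph : ∀ k u, |u| ≤ R → ph D (pol (C' k)) r (fun i => p i + u * X i) ≤ M2 := by
    intro k u hu
    have h1 := h u hu
    rw [hC, phi_rows] at h1
    exact (Finset.single_le_sum (f := fun k => ph D (pol (C' k)) r (fun i => p i + u * X i))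
      (fun _ _ => ph_nonneg _ _ _) (Finset.mem_univ k)).trans h1
  have hM2 : 0 ≤ M2 := (ph_nonneg _ _ _).trans (hph (Mon.zero _ _) 0 (by rw [abs_zero]; exact hR.le))
  have hder : ∀ k (j : Fin (m + 1) → Fin (D + 1)),
      (eval (nodp D p r j) (pderiv 0 (pol (C' k)))) ^ 2 ≤ 2 * (Cu D ^ 2 * M2 / R ^ 2) +
        2 * (m * K ^ 2) * ∑ i : Fin m, (eval (nodp D p r j) (pderiv i.succ (pol (C' k)))) ^ 2 := by
    intro k j
    have h1 := der_dir (pol (C' k)) (pol_deg _) (nodp D p r j) X R (Real.sqrt M2) hR (by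
      intro u hu
      have h2 := hph k u hu
      have h3 := node_le (D := D) (pol (C' k)) r (fun i => p i + u * X i) j
      rw [nodp_shift] at h3
      exact h3.trans (Real.sqrt_le_sqrt h2))
    rw [Fin.sum_univ_succ] at h1
    have e0 : X 0 = 1 := rfl
    have e1 : ∀ i : Fin m, X i.succ = x i := fun i => rfl
    rw [e0, one_mul] at h1
    simp only [e1] at h1
    set T := eval (nodp D p r j) (pderiv 0 (pol (C' k))) with hT
    set Sg := ∑ i : Fin m, x i * eval (nodp D p r j) (pderiv i.succ (pol (C' k))) with hSg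
    have h4 : (T + Sg) ^ 2 ≤ Cu D ^ 2 * M2 / R ^ 2 := by
      rw [← sq_abs]
      refine (pow_le_pow_left₀ (abs_nonneg _) h1 2).trans (le_of_eq ?_)
      rw [div_pow, mul_pow, Real.sq_sqrt hM2]
    have h5 : Sg ^ 2 ≤ m * K ^ 2 * ∑ i : Fin m, (eval (nodp D p r j) (pderiv i.succ (pol (C' k)))) ^ 2 := by
      have h6 := Finset.sum_mul_sq_le_sq_mul_sq (Finset.univ : Finset (Fin m)) x
        (fun i => eval (nodp D p r j) (pderiv i.succ (pol (C' k))))
      refine h6.trans (mul_le_mul_of_nonneg_right ?_ (Finset.sum_nonneg fun _ _ => sq_nonneg _))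
      have h7 : ∀ i ∈ (Finset.univ : Finset (Fin m)), x i ^ 2 ≤ K ^ 2 := by
        intro i _
        rw [← sq_abs]
        exact pow_le_pow_left₀ (abs_nonneg _) (hx i) 2
      refine (Finset.sum_le_card_nsmul _ _ _ h7).trans (le_of_eq ?_)
      rw [nsmul_eq_mul, Finset.card_univ, Fintype.card_fin]
    nlinarith [sq_nonneg (T + 2 * Sg), sq_nonneg (T + Sg), sq_nonneg T]
  rw [gam_split, hC, trJ_rows]
  have h8 : (∑ j : Fin (m + 1) → Fin (D + 1),
      dd 0 (nodp D p r j) ⬝ᵥ ((C'.transpose * C') *ᵥ dd 0 (nodp D p r j))) ≤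
      ∑ j : Fin (m + 1) → Fin (D + 1), ∑ k : Mon (m + 1) D, (2 * (Cu D ^ 2 * M2 / R ^ 2) +
        2 * (m * K ^ 2) * ∑ i : Fin m, (eval (nodp D p r j) (pderiv i.succ (pol (C' k)))) ^ 2) := by
    refine Finset.sum_le_sum fun j _ => ?_
    rw [qf_rows]
    refine Finset.sum_le_sum fun k _ => ?_
    have h9 := hder k j
    rw [eval_pderiv_pol] at h9
    exact h9
  simp only [Finset.sum_add_distrib, ← Finset.mul_sum] at h8
  rw [Finset.sum_const, Finset.sum_const, nsmul_eq_mul, nsmul_eq_mul, card_nodes, Finset.card_univ] at h8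
  rw [add_mul, one_mul]
  linarith

/-- the space gradient of row `k` at node `j` -/
def Gv (r : ℝ) (C' : Matrix (Mon (m + 1) D) (Mon (m + 1) D) ℝ) (p : Fin (m + 1) → ℝ)
    (w : Mon (m + 1) D × (Fin (m + 1) → Fin (D + 1))) : Fin m → ℝ :=
  fun i => eval (nodp D p r w.2) (pderiv i.succ (pol (C' w.1)))

theorem Gv_le (r : ℝ) (C' : Matrix (Mon (m + 1) D) (Mon (m + 1) D) ℝ) (p : Fin (m + 1) → ℝ)
    (w : Mon (m + 1) D × (Fin (m + 1) → Fin (D + 1))) (e : Fin m → ℝ) :
    (Gv r C' p w ⬝ᵥ e) ^ 2 ≤ e ⬝ᵥ (Jf r (C'.transpose * C') p *ᵥ e) := by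
  rw [Jf_rows]
  have e1 : Gv r C' p w ⬝ᵥ e = eval (nodp D p r w.2) (dir e (pol (C' w.1))) := by
    unfold dir dotProduct Gv
    rw [map_sum]
    refine Finset.sum_congr rfl fun i _ => ?_
    rw [map_mul, eval_C, mul_comm]
  rw [e1]
  refine le_trans ?_ (Finset.single_le_sum (f := fun k => ph D (dir e (pol (C' k))) r p)
    (fun _ _ => ph_nonneg _ _ _) (Finset.mem_univ w.1))
  exact Finset.single_le_sum (f := fun j => (eval (nodp D p r j) (dir e (pol (C' w.1)))) ^ 2)
    (fun _ _ => sq_nonneg _) (Finset.mem_univ w.2)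

/-- one gradient is as large as all of them -/
theorem exists_Gv (r : ℝ) (C' : Matrix (Mon (m + 1) D) (Mon (m + 1) D) ℝ) (p : Fin (m + 1) → ℝ) :
    ∃ w, trJ r (C'.transpose * C') p ≤
      nn (m + 1) D * Fintype.card (Mon (m + 1) D) * ∑ i, Gv r C' p w i ^ 2 := by
  obtain ⟨w, -, hw⟩ := Finset.exists_max_image
    (Finset.univ : Finset (Mon (m + 1) D × (Fin (m + 1) → Fin (D + 1))))
    (fun w => ∑ i, Gv r C' p w i ^ 2) Finset.univ_nonempty
  refine ⟨w, ?_⟩
  rw [trJ_rows]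
  have h1 : ∀ j ∈ (Finset.univ : Finset (Fin (m + 1) → Fin (D + 1))),
      (∑ k, ∑ i : Fin m, (eval (nodp D p r j) (pderiv i.succ (pol (C' k)))) ^ 2) ≤
        Fintype.card (Mon (m + 1) D) * ∑ i, Gv r C' p w i ^ 2 := by
    intro j _
    refine (Finset.sum_le_card_nsmul _ _ _ fun k _ => hw (k, j) (Finset.mem_univ _)).trans (le_of_eq ?_)
    rw [nsmul_eq_mul, Finset.card_univ]
  refine (Finset.sum_le_card_nsmul _ _ _ h1).trans (le_of_eq ?_)
  rw [nsmul_eq_mul, card_nodes]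
  ring

end

end Pool.Agent.Helper3.PR
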