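import Pool.Agent.Helper3.PR.Grad

/-! The local inequality: regular volume of a form and of a form of the projection. -/

set_option autoImplicit false

namespace Pool.Agent.Helper3.PR

open MvPolynomial Matrix Pool.Agent.Helper95.LF Pool.Agent.Helper3.LF Pool.Agent.Helper48.NS

noncomputable section

variable {q D : ℕ}

/-- the direction number `τ` of the moment curve -/
def eT (q τ : ℕ) : Fin (q + 1) → ℝ := fun i => (τ : ℝ) ^ (i : ℕ)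

/-- the projection with kernel `eT` -/
def LT (q τ : ℕ) : Matrix (Fin q) (Fin (q + 1)) ℝ :=
  Matrix.of fun i => Fin.cons (-((τ : ℝ) ^ ((i : ℕ) + 1))) fun j => if i = j then 1 else 0

/-- a right inverse -/
def RT (q : ℕ) : Matrix (Fin (q + 1)) (Fin q) ℝ :=
  Matrix.of (Fin.cons (fun _ => 0) fun i j => if i = j then 1 else 0)

theorem LT_zero (τ : ℕ) (i : Fin q) : LT q τ i 0 = -((τ : ℝ) ^ ((i : ℕ) + 1)) := rfl
theorem LT_succ (τ : ℕ) (i j : Fin q) : LT q τ i j.succ = if i = j then 1 else 0 := rfl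
theorem RT_zero (j : Fin q) : RT q 0 j = 0 := rfl
theorem RT_succ (i j : Fin q) : RT q i.succ j = if i = j then 1 else 0 := rfl

theorem LT_RT (τ : ℕ) : LT q τ * RT q = 1 := by
  ext i j
  rw [Matrix.mul_apply, Fin.sum_univ_succ, RT_zero, mul_zero, zero_add, Matrix.one_apply]
  simp only [LT_succ, RT_succ, ite_mul, one_mul, zero_mul, Finset.sum_ite_eq, Finset.mem_univ, if_true]

theorem LT_eT (τ : ℕ) : LT q τ *ᵥ eT q τ = 0 := by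
  funext i
  have e1 : (LT q τ *ᵥ eT q τ) i = ∑ j, LT q τ i j * eT q τ j := rfl
  rw [e1, Fin.sum_univ_succ, LT_zero]
  simp only [LT_succ, ite_mul, one_mul, zero_mul, Finset.sum_ite_eq, Finset.mem_univ, if_true]
  unfold eT
  rw [Pi.zero_apply, Fin.val_zero, pow_zero, Fin.val_succ]
  ring

theorem pow_le_N {τ N : ℕ} (hN : 1 ≤ N) (h : τ ≤ N) {j : ℕ} (hj : j ≤ q) : (τ : ℝ) ^ j ≤ (N : ℝ) ^ q := by
  have hN1 : (1 : ℝ) ≤ (N : ℝ) := by exact_mod_cast hN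
  calc (τ : ℝ) ^ j ≤ (N : ℝ) ^ j := pow_le_pow_left₀ (Nat.cast_nonneg _) (by exact_mod_cast h) _
    _ ≤ (N : ℝ) ^ q := pow_le_pow_right₀ hN1 hj

theorem one_le_Nq {N : ℕ} (hN : 1 ≤ N) : (1 : ℝ) ≤ (N : ℝ) ^ q := one_le_pow₀ (by exact_mod_cast hN)

theorem eT_le {τ N : ℕ} (hN : 1 ≤ N) (h : τ ≤ N) (i : Fin (q + 1)) : |eT q τ i| ≤ (N : ℝ) ^ q := by
  unfold eT
  rw [abs_of_nonneg (by positivity)]
  exact pow_le_N hN h (Nat.le_of_lt_succ i.2)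

theorem LT_le {τ N : ℕ} (hN : 1 ≤ N) (h : τ ≤ N) (i : Fin q) (j : Fin (q + 1)) : |LT q τ i j| ≤ (N : ℝ) ^ q := by
  have h1 := one_le_Nq (q := q) hN
  refine Fin.cases ?_ (fun j => ?_) j
  · rw [LT_zero, abs_neg, abs_of_nonneg (by positivity)]
    exact pow_le_N hN h i.2
  · rw [LT_succ]
    split_ifs
    · rw [abs_one]; exact h1
    · rw [abs_zero]; linarith

theorem RT_le {N : ℕ} (hN : 1 ≤ N) (i : Fin (q + 1)) (j : Fin q) : |RT q i j| ≤ (N : ℝ) ^ q := by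
  have h1 := one_le_Nq (q := q) hN
  refine Fin.cases ?_ (fun i => ?_) i
  · rw [RT_zero, abs_zero]; linarith
  · rw [RT_succ]
    split_ifs
    · rw [abs_one]; exact h1
    · rw [abs_zero]; linarith

theorem mcv_eq (τ : ℕ) (v : Fin (q + 1) → ℝ) : mcv q τ v = v ⬝ᵥ eT q τ := by
  unfold mcv eT dotProduct
  exact Finset.sum_congr rfl fun i _ => mul_comm _ _

/-- operator bound -/
theorem mulVec_sq (L : Matrix (Fin q) (Fin (q + 1)) ℝ) (K : ℝ) (hL : ∀ i j, |L i j| ≤ K)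
    (v : Fin (q + 1) → ℝ) : (L *ᵥ v) ⬝ᵥ (L *ᵥ v) ≤ q * ((q + 1 : ℕ) * K ^ 2) * (v ⬝ᵥ v) := by
  have h1 : ∀ i ∈ (Finset.univ : Finset (Fin q)), (L *ᵥ v) i * (L *ᵥ v) i ≤ ((q + 1 : ℕ) : ℝ) * K ^ 2 * (v ⬝ᵥ v) := by
    intro i _
    have h2 := Finset.sum_mul_sq_le_sq_mul_sq (Finset.univ : Finset (Fin (q + 1))) (L i) v
    have h3 : ∀ j ∈ (Finset.univ : Finset (Fin (q + 1))), L i j ^ 2 ≤ K ^ 2 := by
      intro j _
      rw [← sq_abs]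
      exact pow_le_pow_left₀ (abs_nonneg _) (hL i j) 2
    have h4 := Finset.sum_le_card_nsmul _ _ _ h3
    rw [nsmul_eq_mul, Finset.card_univ, Fintype.card_fin] at h4
    have e1 : v ⬝ᵥ v = ∑ j, v j ^ 2 := by
      unfold dotProduct
      exact Finset.sum_congr rfl fun j _ => by ring
    rw [e1, ← pow_two]
    exact h2.trans (mul_le_mul_of_nonneg_right h4 (Finset.sum_nonneg fun _ _ => sq_nonneg _))
  refine (Finset.sum_le_card_nsmul _ _ _ h1).trans (le_of_eq ?_)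
  rw [nsmul_eq_mul, Finset.card_univ, Fintype.card_fin]
  ring

/-- the constant of the comparison -/
def cT (q D : ℕ) (K c1 : ℝ) : ℝ :=
  q * ((q + 1 : ℕ) * K ^ 2) + nn (q + 1) D * (Cu D * Cm (q + 1 + 1) D * (q * K + 1) ^ D) ^ 2 * c1 + 1

theorem cT_pos (K c1 : ℝ) (hc : 0 ≤ c1) : 1 ≤ cT q D K c1 := by
  unfold cT
  have := nn_one (q + 1) D
  have h1 : 0 ≤ (q : ℝ) * ((q + 1 : ℕ) * K ^ 2) := by positivity
  have h2 : 0 ≤ nn (q + 1) D * (Cu D * Cm (q + 1 + 1) D * (q * K + 1) ^ D) ^ 2 * c1 := by positivity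
  linarith

theorem GG_proj_aux (A : Matrix (Mon (q + 1 + 1) D) (Mon (q + 1 + 1) D) ℝ) (hA : PdM A)
    (B : Matrix (Mon (q + 1) D) (Mon (q + 1) D) ℝ) (hB : PdM B) (r : ℝ) (hr : 0 < r)
    (p : Fin (q + 1 + 1) → ℝ) (τ N : ℕ) (hN : 1 ≤ N) (hτ : τ ≤ N) (c1 : ℝ) (hc1 : 0 ≤ c1)
    (hdom : ∀ v, v ⬝ᵥ (pbk (LT q τ) B *ᵥ v) ≤ c1 * (v ⬝ᵥ (A *ᵥ v))) (g : Fin (q + 1) → ℝ)
    (hg : ∀ v, (g ⬝ᵥ v) ^ 2 ≤ v ⬝ᵥ ((1 + Jf r A p) *ᵥ v)) :
    (g ⬝ᵥ eT q τ) ^ 2 * GG r B (ext (LT q τ) p) ≤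
      (((q + 1).factorial : ℝ) * ((N : ℝ) ^ q) ^ (q + 1)) ^ 2 * (cT q D ((N : ℝ) ^ q) c1 + 1) ^ (q + 1) * GG r A p := by
  have hK := one_le_Nq (q := q) hN
  set K : ℝ := (N : ℝ) ^ q with hKd
  have hcT := cT_pos (q := q) (D := D) K c1 hc1
  have h1 := det_schur (1 + Jf r A p) (1 + Jf r B (ext (LT q τ) p)) (LT q τ) (RT q) (eT q τ) g
    ((cT q D K c1 + 1)⁻¹) K (by positivity) (LT_RT τ) (LT_eT τ) (one_Jf_symm r hA.1 p)
    (one_Jf_pd r hA.1 hA.nonneg p).det_pos.le (one_Jf_pd r hB.1 hB.nonneg _) (eT_le hN hτ) (RT_le hN) (by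
      intro v
      have hv0 := self_nonneg' v
      have hJ0 := Jf_nonneg r hA.nonneg p v
      have h2 := mulVec_sq (LT q τ) K (LT_le hN hτ) v
      have h3 := Jf_pbk_ge (D := D) (LT q τ) (RT q) (LT_RT τ) K (by linarith) (RT_le hN) B hB r hr p v
      have h4 : v ⬝ᵥ (Jf r (pbk (LT q τ) B) p *ᵥ v) ≤ c1 * (v ⬝ᵥ (Jf r A p *ᵥ v)) := by
        rw [Jf_qf, Jf_qf, Finset.mul_sum]
        exact Finset.sum_le_sum fun j _ => hdom _
      have h5 := hg v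
      rw [dv_add, one_dv, dv_add, one_dv]
      rw [dv_add, one_dv] at h5
      have hcc : 0 ≤ nn (q + 1) D * (Cu D * Cm (q + 1 + 1) D * (q * K + 1) ^ D) ^ 2 := by
        have := nn_one (q + 1) D
        positivity
      have h6 : (LT q τ *ᵥ v) ⬝ᵥ (Jf r B (ext (LT q τ) p) *ᵥ (LT q τ *ᵥ v)) ≤
          nn (q + 1) D * (Cu D * Cm (q + 1 + 1) D * (q * K + 1) ^ D) ^ 2 * c1 * (v ⬝ᵥ (Jf r A p *ᵥ v)) := by
        refine h3.trans ((mul_le_mul_of_nonneg_left h4 hcc).trans (le_of_eq ?_))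
        ring
      rw [inv_mul_le_iff₀ (by linarith)]
      have h7 : 0 ≤ (q : ℝ) * ((q + 1 : ℕ) * K ^ 2) := by positivity
      have h8 : 0 ≤ nn (q + 1) D * (Cu D * Cm (q + 1 + 1) D * (q * K + 1) ^ D) ^ 2 * c1 := by positivity
      unfold cT
      nlinarith [mul_nonneg h7 hJ0, mul_nonneg h8 hv0])
  unfold GG
  refine h1.trans (le_of_eq ?_)
  rw [inv_pow, inv_inv]

theorem mul_inv_cancel_aux (a b : ℝ) (hb : 0 < b) : a / b * b = a := div_mul_cancel₀ a hb.ne'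

/-- LOCAL INEQUALITY -/
theorem GG_proj (A : Matrix (Mon (q + 1 + 1) D) (Mon (q + 1 + 1) D) ℝ) (hA : PdM A)
    (B : Matrix (Mon (q + 1) D) (Mon (q + 1) D) ℝ) (hB : PdM B) (r : ℝ) (hr : 0 < r)
    (p : Fin (q + 1 + 1) → ℝ) (τ N : ℕ) (hN : 1 ≤ N) (hτ : τ ≤ N) (c1 : ℝ) (hc1 : 0 ≤ c1)
    (hdom : ∀ v, v ⬝ᵥ (pbk (LT q τ) B *ᵥ v) ≤ c1 * (v ⬝ᵥ (A *ᵥ v))) (g : Fin (q + 1) → ℝ) (c2 : ℝ) (hc2 : 0 ≤ c2)
    (hg : ∀ v, (g ⬝ᵥ v) ^ 2 ≤ v ⬝ᵥ (Jf r A p *ᵥ v)) (hgt : trJ r A p ≤ c2 * ∑ i, g i ^ 2)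
    (hge : ∀ i, |g i| ≤ cGen q N * |mcv q τ g|) :
    (1 + trJ r A p) * GG r B (ext (LT q τ) p) ≤
      ((1 + c2 * ((q + 1 : ℕ) * cGen q N ^ 2)) *
        ((((q + 1).factorial : ℝ) * ((N : ℝ) ^ q) ^ (q + 1)) ^ 2 * (cT q D ((N : ℝ) ^ q) c1 + 1) ^ (q + 1))) *
        GG r A p := by
  set Q : ℝ := (((q + 1).factorial : ℝ) * ((N : ℝ) ^ q) ^ (q + 1)) ^ 2 * (cT q D ((N : ℝ) ^ q) c1 + 1) ^ (q + 1)
    with hQ
  have hGB : 0 ≤ GG r B (ext (LT q τ) p) := (zero_le_one).trans (one_le_GG r hB.1 hB.nonneg _)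
  have h1 := GG_proj_aux A hA B hB r hr p τ N hN hτ c1 hc1 hdom g (fun v => by
    rw [dv_add, one_dv]
    have := hg v
    have := self_nonneg' v
    linarith)
  have h2 := GG_proj_aux A hA B hB r hr p τ N hN hτ c1 hc1 hdom (Pi.single 0 1) (fun v => by
    rw [dv_add, one_dv, single_one_dotProduct]
    have h3 := Jf_nonneg r hA.nonneg p v
    have h4 : v 0 ^ 2 ≤ v ⬝ᵥ v := by
      rw [pow_two]
      exact Finset.single_le_sum (f := fun i => v i * v i) (fun i _ => mul_self_nonneg _) (Finset.mem_univ 0)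
    linarith)
  have e1 : (Pi.single 0 1 : Fin (q + 1) → ℝ) ⬝ᵥ eT q τ = 1 := by
    rw [single_one_dotProduct]
    unfold eT
    rw [Fin.val_zero, pow_zero]
  rw [e1, one_pow, one_mul] at h2
  rw [← mcv_eq] at h1
  have h3 : ∑ i, g i ^ 2 ≤ ((q + 1 : ℕ) : ℝ) * cGen q N ^ 2 * mcv q τ g ^ 2 := by
    have h4 : ∀ i ∈ (Finset.univ : Finset (Fin (q + 1))), g i ^ 2 ≤ cGen q N ^ 2 * mcv q τ g ^ 2 := by
      intro i _
      rw [← sq_abs, ← sq_abs (mcv q τ g), ← mul_pow]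
      exact pow_le_pow_left₀ (abs_nonneg _) (hge i) 2
    refine (Finset.sum_le_card_nsmul _ _ _ h4).trans (le_of_eq ?_)
    rw [nsmul_eq_mul, Finset.card_univ, Fintype.card_fin]
    ring
  have h5 : trJ r A p ≤ c2 * (((q + 1 : ℕ) : ℝ) * cGen q N ^ 2) * mcv q τ g ^ 2 := by
    refine hgt.trans ?_
    rw [mul_assoc c2]
    exact mul_le_mul_of_nonneg_left h3 hc2
  have h6 : 0 ≤ c2 * (((q + 1 : ℕ) : ℝ) * cGen q N ^ 2) := by positivity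
  calc (1 + trJ r A p) * GG r B (ext (LT q τ) p) ≤
      (1 + c2 * (((q + 1 : ℕ) : ℝ) * cGen q N ^ 2) * mcv q τ g ^ 2) * GG r B (ext (LT q τ) p) :=
        mul_le_mul_of_nonneg_right (by linarith) hGB
    _ = GG r B (ext (LT q τ) p) + c2 * (((q + 1 : ℕ) : ℝ) * cGen q N ^ 2) *
        (mcv q τ g ^ 2 * GG r B (ext (LT q τ) p)) := by ring
    _ ≤ Q * GG r A p + c2 * (((q + 1 : ℕ) : ℝ) * cGen q N ^ 2) * (Q * GG r A p) :=
        add_le_add h2 (mul_le_mul_of_nonneg_left h1 h6)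
    _ = _ := by ring

end

end Pool.Agent.Helper3.PR
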