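import Pool.Agent.Helper48.NS.Gr

/-! Linear substitutions in polynomials and forms. -/

set_option autoImplicit false

namespace Pool.Agent.Helper3.PR

open MvPolynomial Matrix Pool.Agent.Helper95.LF Pool.Agent.Helper3.LF Pool.Agent.Helper48.NS

variable {q m D : ℕ}

/-- the map of the points `(t, P) ↦ (t, L P)` -/
def ext (L : Matrix (Fin q) (Fin m) ℝ) (p : Fin (m + 1) → ℝ) : Fin (q + 1) → ℝ :=
  Fin.cons (p 0) fun i => ∑ j, L i j * p j.succ

theorem ext_zero (L : Matrix (Fin q) (Fin m) ℝ) (p : Fin (m + 1) → ℝ) : ext L p 0 = p 0 := rfl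

theorem ext_succ (L : Matrix (Fin q) (Fin m) ℝ) (p : Fin (m + 1) → ℝ) (i : Fin q) :
    ext L p i.succ = ∑ j, L i j * p j.succ := rfl

/-- the substitution -/
noncomputable def sbv (L : Matrix (Fin q) (Fin m) ℝ) : Fin (q + 1) → MvPolynomial (Fin (m + 1)) ℝ :=
  Fin.cons (X 0) fun i => ∑ j, C (L i j) * X j.succ

theorem sbv_zero (L : Matrix (Fin q) (Fin m) ℝ) : sbv L 0 = X 0 := rfl

theorem sbv_succ (L : Matrix (Fin q) (Fin m) ℝ) (i : Fin q) : sbv L i.succ = ∑ j, C (L i j) * X j.succ := rfl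

/-- the substitution -/
noncomputable def sbs (L : Matrix (Fin q) (Fin m) ℝ) :
    MvPolynomial (Fin (q + 1)) ℝ →ₐ[ℝ] MvPolynomial (Fin (m + 1)) ℝ := aeval (sbv L)

theorem sbs_C (L : Matrix (Fin q) (Fin m) ℝ) (c : ℝ) : sbs L (C c) = C c := by
  unfold sbs
  rw [aeval_C]
  rfl

theorem sbs_X (L : Matrix (Fin q) (Fin m) ℝ) (i : Fin (q + 1)) : sbs L (X i) = sbv L i := by
  unfold sbs
  rw [aeval_X]

theorem eval_sbv (L : Matrix (Fin q) (Fin m) ℝ) (p : Fin (m + 1) → ℝ) (i : Fin (q + 1)) :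
    eval p (sbv L i) = ext L p i := by
  refine Fin.cases ?_ (fun i => ?_) i
  · rw [sbv_zero, eval_X, ext_zero]
  · rw [sbv_succ, ext_succ, map_sum]
    refine Finset.sum_congr rfl fun j _ => ?_
    rw [map_mul, eval_C, eval_X]

theorem eval_sbs (L : Matrix (Fin q) (Fin m) ℝ) (p : Fin (m + 1) → ℝ) (f : MvPolynomial (Fin (q + 1)) ℝ) :
    eval p (sbs L f) = eval (ext L p) f := by
  induction f using MvPolynomial.induction_on with
  | C c => rw [sbs_C, eval_C, eval_C]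
  | add f g hf hg => rw [map_add, map_add, map_add, hf, hg]
  | mul_X f n hf => rw [map_mul, map_mul, map_mul, hf, eval_X, sbs_X, eval_sbv]

theorem sbs_deg (L : Matrix (Fin q) (Fin m) ℝ) (f : MvPolynomial (Fin (q + 1)) ℝ) (d : ℕ)
    (hf : f.totalDegree ≤ d) : (sbs L f).totalDegree ≤ d := by
  rw [f.as_sum, map_sum]
  refine totalDegree_finsetSum_le fun s hs => ?_
  unfold sbs
  rw [aeval_monomial]
  refine (totalDegree_mul _ _).trans ?_
  have e1 : (algebraMap ℝ (MvPolynomial (Fin (m + 1)) ℝ)) (coeff s f) = C (coeff s f) := rfl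
  rw [e1, totalDegree_C, zero_add, Finsupp.prod_fintype _ _ (fun _ => pow_zero _)]
  refine (totalDegree_finsetProd _ _).trans ?_
  have h1 : (s.sum fun _ e => e) ≤ d := (le_totalDegree hs).trans hf
  rw [Finsupp.sum_fintype _ _ (fun _ => rfl)] at h1
  refine le_trans (Finset.sum_le_sum fun i _ => ?_) h1
  refine (totalDegree_pow _ _).trans ?_
  have h2 : ∀ i, (sbv L i).totalDegree ≤ 1 := by
    refine fun i => Fin.cases ?_ (fun i => ?_) i
    · rw [sbv_zero]
      exact (totalDegree_X _).le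
    · rw [sbv_succ]
      refine totalDegree_finsetSum_le fun j _ => ?_
      refine (totalDegree_mul _ _).trans ?_
      rw [totalDegree_C, totalDegree_X]
  calc s i * _ ≤ s i * 1 := Nat.mul_le_mul_left _ (h2 i)
    _ = s i := mul_one _

/-- chain rule, last variables -/
theorem pderiv_sbs_succ (L : Matrix (Fin q) (Fin m) ℝ) (a : Fin m) (f : MvPolynomial (Fin (q + 1)) ℝ) :
    pderiv a.succ (sbs L f) = ∑ i, C (L i a) * sbs L (pderiv i.succ f) := by
  classical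
  induction f using MvPolynomial.induction_on with
  | C c =>
    rw [sbs_C, pderiv_C]
    symm
    apply Finset.sum_eq_zero
    intro i _
    rw [pderiv_C, map_zero, mul_zero]
  | add f g hf hg =>
    rw [map_add, map_add, hf, hg, ← Finset.sum_add_distrib]
    refine Finset.sum_congr rfl fun i _ => ?_
    rw [map_add, map_add, mul_add]
  | mul_X f n hf =>
    rw [map_mul, pderiv_mul, hf, sbs_X]
    have e1 : ∀ i : Fin q, C (L i a) * sbs L (pderiv i.succ (f * X n)) =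
        C (L i a) * sbs L (pderiv i.succ f) * sbv L n +
          sbs L f * (C (L i a) * sbs L (pderiv i.succ (X n))) := by
      intro i
      rw [pderiv_mul, map_add, map_mul, map_mul, sbs_X]
      ring
    rw [Finset.sum_congr rfl fun i _ => e1 i, Finset.sum_add_distrib, ← Finset.sum_mul, ← Finset.mul_sum]
    congr 2
    refine Fin.cases ?_ (fun l => ?_) n
    · rw [sbv_zero, pderiv_X_of_ne (Fin.succ_ne_zero a).symm]
      symm
      apply Finset.sum_eq_zero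
      intro i _
      rw [pderiv_X_of_ne (Fin.succ_ne_zero i).symm, map_zero, mul_zero]
    · rw [sbv_succ, map_sum]
      have e2 : ∀ j : Fin m, pderiv a.succ (C (L l j) * X j.succ : MvPolynomial (Fin (m + 1)) ℝ) =
          if j = a then C (L l a) else 0 := by
        intro j
        rw [pderiv_C_mul]
        by_cases h : j = a
        · rw [if_pos h, h, pderiv_X_self, mul_one]
        · rw [if_neg h, pderiv_X_of_ne (fun h' => h (Fin.succ_injective _ h')), mul_zero]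
      rw [Finset.sum_congr rfl fun j _ => e2 j, Finset.sum_ite_eq' Finset.univ a, if_pos (Finset.mem_univ a)]
      have e3 : ∀ i : Fin q, C (L i a) * sbs L (pderiv i.succ (X l.succ : MvPolynomial (Fin (q + 1)) ℝ)) =
          if i = l then C (L l a) else 0 := by
        intro i
        by_cases h : i = l
        · rw [if_pos h, h, pderiv_X_self, map_one, mul_one]
        · rw [if_neg h, pderiv_X_of_ne (fun h' => h (Fin.succ_injective _ h').symm), map_zero, mul_zero]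
      rw [Finset.sum_congr rfl fun i _ => e3 i, Finset.sum_ite_eq' Finset.univ l, if_pos (Finset.mem_univ l)]

/-- directional derivatives -/
theorem dir_sbs (L : Matrix (Fin q) (Fin m) ℝ) (e : Fin m → ℝ) (f : MvPolynomial (Fin (q + 1)) ℝ) :
    dir e (sbs L f) = sbs L (dir (L *ᵥ e) f) := by
  unfold dir
  rw [map_sum]
  have e1 : ∀ a, C (e a) * pderiv a.succ (sbs L f) = ∑ i, C (L i a * e a) * sbs L (pderiv i.succ f) := by
    intro a
    rw [pderiv_sbs_succ, Finset.mul_sum]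
    refine Finset.sum_congr rfl fun i _ => ?_
    rw [C_mul]
    ring
  rw [Finset.sum_congr rfl fun a _ => e1 a, Finset.sum_comm]
  refine Finset.sum_congr rfl fun i _ => ?_
  rw [← Finset.sum_mul, map_mul, sbs_C, ← map_sum]
  rfl

/-- the matrix of the substitution -/
noncomputable def UU (D : ℕ) (L : Matrix (Fin q) (Fin m) ℝ) : Matrix (Mon (m + 1) D) (Mon (q + 1) D) ℝ :=
  Matrix.of fun a b => coeff a.ex (sbs L b.mon)

theorem pol_UU (L : Matrix (Fin q) (Fin m) ℝ) (c : Mon (q + 1) D → ℝ) :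
    pol (UU D L *ᵥ c) = sbs L (pol c) := by
  obtain ⟨c', hc'⟩ := exists_pol (D := D) (sbs L (pol c)) (sbs_deg L _ D (pol_deg c))
  rw [hc']
  congr 1
  funext a
  rw [← coeff_pol c' a, ← hc']
  unfold pol
  rw [map_sum, coeff_sum]
  unfold Matrix.mulVec dotProduct
  refine Finset.sum_congr rfl fun b _ => ?_
  rw [map_mul, sbs_C, coeff_C_mul, mul_comm]
  rfl

/-- monomials at the image point -/
theorem vv_ext (L : Matrix (Fin q) (Fin m) ℝ) (p : Fin (m + 1) → ℝ) :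
    (vv (ext L p) : Mon (q + 1) D → ℝ) = (UU D L).transpose *ᵥ vv p := by
  funext b
  have h1 : ∀ c : Mon (q + 1) D → ℝ, c ⬝ᵥ vv (ext L p) = c ⬝ᵥ ((UU D L).transpose *ᵥ vv p) := by
    intro c
    rw [← eval_pol, ← eval_sbs, ← pol_UU, eval_pol, Matrix.dotProduct_mulVec, Matrix.vecMul_transpose]
  have h2 := h1 (Pi.single b 1)
  rwa [single_one_dotProduct, single_one_dotProduct] at h2

/-- the pull-back of a form -/
noncomputable def pbk (L : Matrix (Fin q) (Fin m) ℝ) (A : Matrix (Mon (q + 1) D) (Mon (q + 1) D) ℝ) :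
    Matrix (Mon (m + 1) D) (Mon (m + 1) D) ℝ := UU D L * A * (UU D L).transpose

theorem pbk_qf (L : Matrix (Fin q) (Fin m) ℝ) (A : Matrix (Mon (q + 1) D) (Mon (q + 1) D) ℝ)
    (x : Mon (m + 1) D → ℝ) :
    x ⬝ᵥ (pbk L A *ᵥ x) = ((UU D L).transpose *ᵥ x) ⬝ᵥ (A *ᵥ ((UU D L).transpose *ᵥ x)) := by
  unfold pbk
  rw [← Matrix.mulVec_mulVec, ← Matrix.mulVec_mulVec, Matrix.dotProduct_mulVec, ← Matrix.mulVec_transpose]

theorem pbk_symm (L : Matrix (Fin q) (Fin m) ℝ) {A : Matrix (Mon (q + 1) D) (Mon (q + 1) D) ℝ}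
    (hA : A.IsSymm) : (pbk L A).IsSymm := by
  unfold Matrix.IsSymm pbk
  rw [Matrix.transpose_mul, Matrix.transpose_mul, Matrix.transpose_transpose, hA.eq, Matrix.mul_assoc]

theorem pbk_nonneg (L : Matrix (Fin q) (Fin m) ℝ) {A : Matrix (Mon (q + 1) D) (Mon (q + 1) D) ℝ}
    (hA : ∀ x, 0 ≤ x ⬝ᵥ (A *ᵥ x)) (x : Mon (m + 1) D → ℝ) : 0 ≤ x ⬝ᵥ (pbk L A *ᵥ x) := by
  rw [pbk_qf]
  exact hA _

/-- the rows of the pull-back -/
theorem pbk_rows (L : Matrix (Fin q) (Fin m) ℝ) (C' : Matrix (Mon (q + 1) D) (Mon (q + 1) D) ℝ)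
    (x : Mon (m + 1) D → ℝ) :
    x ⬝ᵥ (pbk L (C'.transpose * C') *ᵥ x) = ∑ k, ((UU D L *ᵥ C' k) ⬝ᵥ x) ^ 2 := by
  rw [pbk_qf, qf_rows]
  refine Finset.sum_congr rfl fun k _ => ?_
  rw [Matrix.dotProduct_mulVec, Matrix.vecMul_transpose]

theorem pbk_phi_rows (L : Matrix (Fin q) (Fin m) ℝ) (C' : Matrix (Mon (q + 1) D) (Mon (q + 1) D) ℝ)
    (r : ℝ) (p : Fin (m + 1) → ℝ) :
    phi r (pbk L (C'.transpose * C')) p = ∑ k, ph D (sbs L (pol (C' k))) r p := by
  unfold phi ph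
  rw [Finset.sum_comm (s := (Finset.univ : Finset (Mon (q + 1) D)))]
  refine Finset.sum_congr rfl fun j _ => ?_
  rw [pbk_rows]
  exact Finset.sum_congr rfl fun k _ => by rw [← eval_pol, pol_UU]

theorem pbk_Jf_rows (L : Matrix (Fin q) (Fin m) ℝ) (C' : Matrix (Mon (q + 1) D) (Mon (q + 1) D) ℝ)
    (r : ℝ) (p : Fin (m + 1) → ℝ) (e : Fin m → ℝ) :
    e ⬝ᵥ (Jf r (pbk L (C'.transpose * C')) p *ᵥ e) =
      ∑ k, ph D (sbs L (dir (L *ᵥ e) (pol (C' k)))) r p := by
  rw [Jf_qf]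
  unfold ph
  rw [Finset.sum_comm (s := (Finset.univ : Finset (Mon (q + 1) D)))]
  refine Finset.sum_congr rfl fun j _ => ?_
  rw [pbk_rows]
  refine Finset.sum_congr rfl fun k _ => ?_
  rw [← eval_dir, pol_UU, dir_sbs]

/-! ### comparison of cells -/

theorem ext_sub (L : Matrix (Fin q) (Fin m) ℝ) (K : ℝ) (hK : 0 ≤ K) (hL : ∀ i j, |L i j| ≤ K)
    (p x : Fin (m + 1) → ℝ) (c : ℝ) (hx : ∀ i, |x i - p i| ≤ c) (i : Fin (q + 1)) :
    |ext L x i - ext L p i| ≤ (m * K + 1) * c := by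
  have hc : 0 ≤ c := (abs_nonneg _).trans (hx 0)
  have h2 : 0 ≤ (m : ℝ) * K * c := by positivity
  refine Fin.cases ?_ (fun i => ?_) i
  · rw [ext_zero, ext_zero]
    have := hx 0
    nlinarith
  · rw [ext_succ, ext_succ, ← Finset.sum_sub_distrib]
    have h1 : ∀ j ∈ (Finset.univ : Finset (Fin m)), |L i j * x j.succ - L i j * p j.succ| ≤ K * c := by
      intro j _
      rw [← mul_sub, abs_mul]
      exact mul_le_mul (hL i j) (hx _) (abs_nonneg _) hK
    refine (Finset.abs_sum_le_sum_abs _ _).trans ((Finset.sum_le_card_nsmul _ _ _ h1).trans ?_)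
    rw [nsmul_eq_mul, Finset.card_univ, Fintype.card_fin]
    nlinarith

theorem nodp_sub (p : Fin m → ℝ) (r : ℝ) (hr : 0 ≤ r) (j : Fin m → Fin (D + 1)) (i : Fin m) :
    |nodp D p r j i - p i| ≤ r := by
  have e1 : nodp D p r j i - p i = r * nod D (j i) := by
    unfold nodp
    ring
  rw [e1, abs_mul, abs_of_nonneg hr, abs_of_nonneg (nod_nonneg D _)]
  calc r * nod D (j i) ≤ r * 1 := mul_le_mul_of_nonneg_left (nod_le D _ (Nat.le_of_lt_succ (j i).2)) hr
    _ = r := mul_one _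

/-- the substituted polynomial is not larger -/
theorem ph_sbs_le (L : Matrix (Fin q) (Fin m) ℝ) (K : ℝ) (hK : 0 ≤ K) (hL : ∀ i j, |L i j| ≤ K)
    (f : MvPolynomial (Fin (q + 1)) ℝ) (hf : f.totalDegree ≤ D) (r : ℝ) (hr : 0 < r) (p : Fin (m + 1) → ℝ) :
    ph D (sbs L f) r p ≤ nn (m + 1) D * (Cu D * Cm (q + 1) D * (m * K + 1) ^ D) ^ 2 * ph D f r (ext L p) := by
  have hK1 : 1 ≤ (m : ℝ) * K + 1 := by
    have : 0 ≤ (m : ℝ) * K := by positivity
    linarith
  have h1 : ∀ j ∈ (Finset.univ : Finset (Fin (m + 1) → Fin (D + 1))), (eval (nodp D p r j) (sbs L f)) ^ 2 ≤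
      (Cu D * Cm (q + 1) D * (m * K + 1) ^ D) ^ 2 * ph D f r (ext L p) := by
    intro j _
    rw [eval_sbs]
    exact gro_le f hf r _ hr hK1 _ _ fun i => ext_sub L K hK hL p _ r (nodp_sub p r hr.le j) i
  refine (Finset.sum_le_card_nsmul _ _ _ h1).trans (le_of_eq ?_)
  rw [nsmul_eq_mul, card_nodes]
  ring

/-- a preimage -/
def lft (L : Matrix (Fin q) (Fin m) ℝ) (R : Matrix (Fin m) (Fin q) ℝ) (p : Fin (m + 1) → ℝ)
    (y : Fin (q + 1) → ℝ) : Fin (m + 1) → ℝ :=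
  Fin.cons (y 0) fun j => p j.succ + ∑ i, R j i * (y i.succ - ext L p i.succ)

theorem ext_lft (L : Matrix (Fin q) (Fin m) ℝ) (R : Matrix (Fin m) (Fin q) ℝ) (hLR : L * R = 1)
    (p : Fin (m + 1) → ℝ) (y : Fin (q + 1) → ℝ) : ext L (lft L R p y) = y := by
  funext i
  refine Fin.cases rfl (fun i => ?_) i
  rw [ext_succ]
  unfold lft
  simp only [Fin.cons_succ]
  have e1 : ∀ j, L i j * (p j.succ + ∑ l, R j l * (y l.succ - ext L p l.succ)) =
      L i j * p j.succ + ∑ l, L i j * R j l * (y l.succ - ext L p l.succ) := by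
    intro j
    rw [mul_add, Finset.mul_sum]
    congr 1
    exact Finset.sum_congr rfl fun l _ => by ring
  rw [Finset.sum_congr rfl fun j _ => e1 j, Finset.sum_add_distrib, Finset.sum_comm]
  have e2 : ∀ l, ∑ j, L i j * R j l * (y l.succ - ext L p l.succ) =
      (if i = l then 1 else 0) * (y l.succ - ext L p l.succ) := by
    intro l
    rw [← Finset.sum_mul]
    congr 1
    have h1 := congrFun (congrFun hLR i) l
    rw [Matrix.mul_apply, Matrix.one_apply] at h1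
    exact h1
  rw [Finset.sum_congr rfl fun l _ => e2 l]
  simp only [ite_mul, one_mul, zero_mul, Finset.sum_ite_eq, Finset.mem_univ, if_true]
  rw [ext_succ]
  ring

theorem lft_sub (L : Matrix (Fin q) (Fin m) ℝ) (R : Matrix (Fin m) (Fin q) ℝ) (K : ℝ) (hK : 0 ≤ K)
    (hR : ∀ i j, |R i j| ≤ K) (p : Fin (m + 1) → ℝ) (y : Fin (q + 1) → ℝ) (c : ℝ)
    (hy : ∀ i, |y i - ext L p i| ≤ c) (i : Fin (m + 1)) : |lft L R p y i - p i| ≤ (q * K + 1) * c := by
  have hc : 0 ≤ c := (abs_nonneg _).trans (hy 0)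
  have h2 : 0 ≤ (q : ℝ) * K * c := by positivity
  refine Fin.cases ?_ (fun i => ?_) i
  · have := hy 0
    rw [ext_zero] at this
    show |y 0 - p 0| ≤ _
    nlinarith
  · unfold lft
    simp only [Fin.cons_succ, add_sub_cancel_left]
    have h1 : ∀ j ∈ (Finset.univ : Finset (Fin q)), |R i j * (y j.succ - ext L p j.succ)| ≤ K * c := by
      intro j _
      rw [abs_mul]
      exact mul_le_mul (hR i j) (hy _) (abs_nonneg _) hK
    refine (Finset.abs_sum_le_sum_abs _ _).trans ((Finset.sum_le_card_nsmul _ _ _ h1).trans ?_)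
    rw [nsmul_eq_mul, Finset.card_univ, Fintype.card_fin]
    nlinarith

/-- the substituted polynomial is not smaller -/
theorem ph_sbs_ge (L : Matrix (Fin q) (Fin m) ℝ) (R : Matrix (Fin m) (Fin q) ℝ) (hLR : L * R = 1) (K : ℝ)
    (hK : 0 ≤ K) (hR : ∀ i j, |R i j| ≤ K) (f : MvPolynomial (Fin (q + 1)) ℝ) (hf : f.totalDegree ≤ D) (r : ℝ)
    (hr : 0 < r) (p : Fin (m + 1) → ℝ) :
    ph D f r (ext L p) ≤ nn (q + 1) D * (Cu D * Cm (m + 1) D * (q * K + 1) ^ D) ^ 2 * ph D (sbs L f) r p := by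
  have hK1 : 1 ≤ (q : ℝ) * K + 1 := by
    have : 0 ≤ (q : ℝ) * K := by positivity
    linarith
  have h1 : ∀ j ∈ (Finset.univ : Finset (Fin (q + 1) → Fin (D + 1))), (eval (nodp D (ext L p) r j) f) ^ 2 ≤
      (Cu D * Cm (m + 1) D * (q * K + 1) ^ D) ^ 2 * ph D (sbs L f) r p := by
    intro j _
    have e1 := ext_lft L R hLR p (nodp D (ext L p) r j)
    rw [← e1, ← eval_sbs]
    exact gro_le _ (sbs_deg L f D hf) r _ hr hK1 _ _ fun i =>
      lft_sub L R K hK hR p _ r (nodp_sub _ r hr.le j) i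
  refine (Finset.sum_le_card_nsmul _ _ _ h1).trans (le_of_eq ?_)
  rw [nsmul_eq_mul, card_nodes]
  ring

/-- the pull-back of a form is not larger -/
theorem phi_pbk_le (L : Matrix (Fin q) (Fin m) ℝ) (K : ℝ) (hK : 0 ≤ K) (hL : ∀ i j, |L i j| ≤ K)
    (A : Matrix (Mon (q + 1) D) (Mon (q + 1) D) ℝ) (hA : PdM A) (r : ℝ) (hr : 0 < r) (p : Fin (m + 1) → ℝ) :
    phi r (pbk L A) p ≤ nn (m + 1) D * (Cu D * Cm (q + 1) D * (m * K + 1) ^ D) ^ 2 * phi r A (ext L p) := by
  obtain ⟨C', hC, h1, -⟩ := exists_rows A hA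
  rw [h1, hC, pbk_phi_rows, Finset.mul_sum]
  exact Finset.sum_le_sum fun k _ => ph_sbs_le L K hK hL _ (pol_deg _) r hr p

/-- the gradients of the pull-back of a form are not smaller -/
theorem Jf_pbk_ge (L : Matrix (Fin q) (Fin m) ℝ) (R : Matrix (Fin m) (Fin q) ℝ) (hLR : L * R = 1) (K : ℝ)
    (hK : 0 ≤ K) (hR : ∀ i j, |R i j| ≤ K) (A : Matrix (Mon (q + 1) D) (Mon (q + 1) D) ℝ) (hA : PdM A) (r : ℝ)
    (hr : 0 < r) (p : Fin (m + 1) → ℝ) (e : Fin m → ℝ) :
    (L *ᵥ e) ⬝ᵥ (Jf r A (ext L p) *ᵥ (L *ᵥ e)) ≤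
      nn (q + 1) D * (Cu D * Cm (m + 1) D * (q * K + 1) ^ D) ^ 2 * (e ⬝ᵥ (Jf r (pbk L A) p *ᵥ e)) := by
  obtain ⟨C', hC, -⟩ := exists_factor A hA
  rw [hC, Jf_rows, pbk_Jf_rows, Finset.mul_sum]
  exact Finset.sum_le_sum fun k _ => ph_sbs_ge L R hLR K hK hR _ (dir_deg _ _ (pol_deg _)) r hr p

/-- points of lines -/
theorem ext_pl (L : Matrix (Fin q) (Fin m) ℝ) (a x : Fin m → ℝ) (s : ℝ) :
    ext L (pl a x s) = pl (fun i => ∑ j, L i j * a j) (fun i => ∑ j, L i j * x j) s := by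
  funext i
  refine Fin.cases rfl (fun i => ?_) i
  rw [ext_succ, pl_succ, Finset.mul_sum, ← Finset.sum_add_distrib]
  refine Finset.sum_congr rfl fun j _ => ?_
  rw [pl_succ]
  ring

end Pool.Agent.Helper3.PR
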